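import Mathlib

open Polynomial

namespace Pool.Agent.Lib.MP_14789b_nt

/-- A diagonal form over a commutative ring is anisotropic. -/
def Aniso {R : Type*} [CommRing R] {ι : Type*} [Fintype ι] (d : ι → R) : Prop :=
  ∀ x : ι → R, ∑ i, d i * x i ^ 2 = 0 → ∀ i, x i = 0

section
variable {F : Type*} [Field F]

/-- A nonzero polynomial of odd degree has an irreducible factor of odd degree. -/
theorem exists_odd_irreducible_factor :
    ∀ (n : ℕ) (q : F[X]), q.natDegree ≤ n → Odd q.natDegree →
      ∃ r : F[X], Irreducible r ∧ Odd r.natDegree ∧ r ∣ q := by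
  intro n
  induction n with
  | zero =>
    intro q hq hodd
    have : q.natDegree = 0 := by omega
    rw [this] at hodd
    exact absurd hodd (by decide)
  | succ n ih =>
    intro q hq hodd
    by_cases hirr : Irreducible q
    · exact ⟨q, hirr, hodd, dvd_rfl⟩
    have hq0 : q ≠ 0 := by
      rintro rfl
      simp at hodd
    have hnu : ¬ IsUnit q := by
      intro hu
      rw [natDegree_eq_zero_of_isUnit hu] at hodd
      exact absurd hodd (by decide)
    rw [irreducible_iff] at hirr
    push Not at hirr
    obtain ⟨a, b, hab, ha, hb⟩ := hirr hnu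
    have ha0 : a ≠ 0 := by rintro rfl; simp at hab; exact hq0 hab
    have hb0 : b ≠ 0 := by rintro rfl; simp at hab; exact hq0 hab
    have hdeg : q.natDegree = a.natDegree + b.natDegree := by
      rw [hab, natDegree_mul ha0 hb0]
    have hapos : 0 < a.natDegree := by
      rcases Nat.eq_zero_or_pos a.natDegree with h | h
      · exact absurd (isUnit_iff_degree_eq_zero.mpr (by rw [degree_eq_natDegree ha0, h]; rfl)) ha
      · exact h
    have hbpos : 0 < b.natDegree := by
      rcases Nat.eq_zero_or_pos b.natDegree with h | h
      · exact absurd (isUnit_iff_degree_eq_zero.mpr (by rw [degree_eq_natDegree hb0, h]; rfl)) hb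
      · exact h
    rcases Nat.even_or_odd a.natDegree with hae | hao
    · have hbo : Odd b.natDegree := by
        rw [hdeg] at hodd
        rcases Nat.even_or_odd b.natDegree with hbe | hbo
        · exact absurd (hae.add hbe) (Nat.not_even_iff_odd.mpr hodd)
        · exact hbo
      obtain ⟨r, hr, hro, hrd⟩ := ih b (by omega) hbo
      exact ⟨r, hr, hro, hrd.trans (by rw [hab]; exact dvd_mul_left _ _)⟩
    · obtain ⟨r, hr, hro, hrd⟩ := ih a (by omega) hao
      exact ⟨r, hr, hro, hrd.trans (by rw [hab]; exact dvd_mul_right _ _)⟩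

variable {ι : Type*} [Fintype ι]

theorem coeff_sum_diag (d : ι → F) (f : ι → F[X]) (m : ℕ) (hf : ∀ i, (f i).natDegree ≤ m) :
    (∑ i, C (d i) * f i ^ 2).coeff (2 * m) = ∑ i, d i * (f i).coeff m ^ 2 := by
  rw [finsetSum_coeff]
  refine Finset.sum_congr rfl fun i _ => ?_
  rw [coeff_C_mul, coeff_pow_of_natDegree_le (hf i)]

theorem natDegree_sum_diag_le (d : ι → F) (f : ι → F[X]) (m : ℕ)
    (hf : ∀ i, (f i).natDegree ≤ m) :
    (∑ i, C (d i) * f i ^ 2).natDegree ≤ 2 * m := by
  refine natDegree_sum_le_of_forall_le _ _ fun i _ => ?_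
  refine (natDegree_C_mul_le _ _).trans ?_
  refine natDegree_pow_le.trans ?_
  have := hf i
  omega

/-- Springer's theorem for diagonal forms, in polynomial form. -/
theorem springer_poly (d : ι → F) (hd : Aniso d) :
    ∀ (n : ℕ) (p : F[X]), Irreducible p → p.natDegree = n → Odd n →
      ∀ (m : ℕ) (f : ι → F[X]), (∀ i, (f i).natDegree ≤ m) →
        p ∣ ∑ i, C (d i) * f i ^ 2 → ∀ i, p ∣ f i := by
  intro n
  induction n using Nat.strong_induction_on with
  | _ n ihn =>
  intro p hp hpn hodd m
  induction m using Nat.strong_induction_on with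
  | _ m ihm =>
  intro f hf hdvd
  have hp0 : p ≠ 0 := hp.ne_zero
  have hnpos : 0 < n := hodd.pos
  by_cases hmn : n ≤ m
  · -- reduce modulo p
    have h1 : ∀ i, (f i % p).natDegree ≤ n - 1 := by
      intro i
      have : (f i % p).natDegree < p.natDegree :=
        natDegree_mod_lt _ (by omega)
      omega
    have h2 : p ∣ ∑ i, C (d i) * (f i % p) ^ 2 := by
      have h3 : p ∣ ∑ i, C (d i) * f i ^ 2 - ∑ i, C (d i) * (f i % p) ^ 2 := by
        rw [← Finset.sum_sub_distrib]
        refine Finset.dvd_sum fun i _ => ?_
        have : C (d i) * f i ^ 2 - C (d i) * (f i % p) ^ 2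
            = C (d i) * (f i + f i % p) * (f i - f i % p) := by ring
        rw [this]
        refine Dvd.dvd.mul_left ?_ _
        refine ⟨f i / p, ?_⟩
        have := EuclideanDomain.div_add_mod (f i) p
        linear_combination (-1 : F[X]) * this
      exact (dvd_sub_right hdvd).mp h3
    have h4 := ihm (n - 1) (by omega) (fun i => f i % p) h1 h2
    intro i
    exact (EuclideanDomain.dvd_mod_iff dvd_rfl).mp (h4 i)
  · push Not at hmn
    by_cases hall : ∀ i, (f i).coeff m = 0
    · -- all of smaller degree
      rcases Nat.eq_zero_or_pos m with hm0 | hmpos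
      · intro i
        have : f i = 0 := by
          rw [eq_C_of_natDegree_le_zero (p := f i) (by have := hf i; omega)]
          have := hall i
          rw [hm0] at this
          rw [this, C_0]
        rw [this]
        exact dvd_zero _
      · refine ihm (m - 1) (by omega) f ?_ hdvd
        intro i
        have h5 : (f i).natDegree ≠ m := by
          intro h
          have h6 := hall i
          rw [← h] at h6
          have : f i = 0 := leadingCoeff_eq_zero.mp h6
          rw [this] at h
          simp at h
          omega
        have := hf i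
        omega
    · -- exact degree 2 m
      have hne : (∑ i, C (d i) * f i ^ 2).coeff (2 * m) ≠ 0 := by
        rw [coeff_sum_diag d f m hf]
        intro h
        exact hall (hd _ h)
      set N := ∑ i, C (d i) * f i ^ 2 with hN
      have hN0 : N ≠ 0 := by
        intro h
        rw [h] at hne
        simp at hne
      have hNdeg : N.natDegree = 2 * m :=
        le_antisymm (natDegree_sum_diag_le d f m hf) (le_natDegree_of_ne_zero hne)
      obtain ⟨q, hq⟩ := hdvd
      have hq0 : q ≠ 0 := by rintro rfl; simp at hq; exact hN0 hq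
      have hdeg : 2 * m = n + q.natDegree := by
        rw [← hNdeg, hq, natDegree_mul hp0 hq0, hpn]
      have hqodd : Odd q.natDegree := by
        obtain ⟨k, hk⟩ := hodd
        exact ⟨m - k - 1, by omega⟩
      obtain ⟨r, hr, hro, hrd⟩ := exists_odd_irreducible_factor _ q le_rfl hqodd
      have hrdeg : r.natDegree ≤ q.natDegree := natDegree_le_of_dvd hrd hq0
      have hrlt : r.natDegree < n := by omega
      have hrN : r ∣ N := hrd.trans ⟨p, by rw [hq]; ring⟩
      have hrf := ihn r.natDegree hrlt r hr rfl hro m f hf hrN
      choose g hg using hrf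
      have hrpos : 0 < r.natDegree := hro.pos
      have hgdeg : ∀ i, (g i).natDegree ≤ m - 1 := by
        intro i
        by_cases hgi : g i = 0
        · rw [hgi]; simp
        · have := hf i
          rw [hg i, natDegree_mul hr.ne_zero hgi] at this
          omega
      have hmpos : 0 < m := by omega
      have hpr : ¬ p ∣ r := by
        intro h
        have := natDegree_le_of_dvd h hr.ne_zero
        omega
      have hpprime : Prime p := hp.prime
      have hfin : p ∣ ∑ i, C (d i) * g i ^ 2 := by
        have h7 : p ∣ r ^ 2 * ∑ i, C (d i) * g i ^ 2 := by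
          refine ⟨q, ?_⟩
          rw [← hq, hN, Finset.mul_sum]
          refine Finset.sum_congr rfl fun i _ => ?_
          rw [hg i]
          ring
        rcases hpprime.dvd_or_dvd h7 with h | h
        · exact absurd (hpprime.dvd_of_dvd_pow h) hpr
        · exact h
      have := ihm (m - 1) (by omega) g hgdeg hfin
      intro i
      rw [hg i]
      exact (this i).mul_left _

/-- Springer's theorem for diagonal forms over a simple extension of odd degree. -/
theorem springer (d : ι → F) (hd : Aniso d) (p : F[X]) (hp : Irreducible p)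
    (hodd : Odd p.natDegree) :
    Aniso (fun i => AdjoinRoot.of p (d i)) := by
  intro x hx
  have : ∀ i, ∃ f : F[X], AdjoinRoot.mk p f = x i := fun i => AdjoinRoot.mk_surjective (x i)
  choose f hf using this
  have hsum : AdjoinRoot.mk p (∑ i, C (d i) * f i ^ 2) = 0 := by
    rw [map_sum, ← hx]
    refine Finset.sum_congr rfl fun i _ => ?_
    rw [map_mul, map_pow, hf i]
    rfl
  rw [AdjoinRoot.mk_eq_zero] at hsum
  obtain ⟨m, hm⟩ : ∃ m, ∀ i, (f i).natDegree ≤ m :=
    ⟨Finset.univ.sup fun i => (f i).natDegree, fun i =>
      Finset.le_sup (f := fun i => (f i).natDegree) (Finset.mem_univ i)⟩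
  have := springer_poly d hd _ p hp rfl hodd m f hm hsum
  intro i
  rw [← hf i, AdjoinRoot.mk_eq_zero]
  exact this i

end

end Pool.Agent.Lib.MP_14789b_nt
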