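import Mathlib
import Pool.Agent.Lib.MP_14789b_nt.Springer

open Polynomial

namespace Pool.Agent.Lib.MP_14789b_nt

/-- `m copies of c1` plus `<c2, c3>` is anisotropic for all `m`. -/
def Str1 (E : Type*) [Field E] (c1 c2 c3 : E) : Prop :=
  ∀ (n : ℕ) (f : Fin n → E) (y z : E),
    c1 * ∑ i, f i ^ 2 + c2 * y ^ 2 + c3 * z ^ 2 = 0 → (∀ i, f i = 0) ∧ y = 0 ∧ z = 0

/-- `<c1, c1', c2>` plus `m copies of c3` is anisotropic for all `m`. -/
def Str3 (E : Type*) [Field E] (c1 c1' c2 c3 : E) : Prop :=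
  ∀ (n : ℕ) (f : Fin n → E) (x x' y : E),
    c1 * x ^ 2 + c1' * x' ^ 2 + c2 * y ^ 2 + c3 * ∑ i, f i ^ 2 = 0 →
      (∀ i, f i = 0) ∧ x = 0 ∧ x' = 0 ∧ y = 0

section
variable {E : Type*} [Field E]

theorem Str1.fintype {c1 c2 c3 : E} (h : Str1 E c1 c2 c3) {κ : Type*} [Fintype κ]
    (f : κ → E) (y z : E) (hs : c1 * ∑ i, f i ^ 2 + c2 * y ^ 2 + c3 * z ^ 2 = 0) :
    (∀ i, f i = 0) ∧ y = 0 ∧ z = 0 := by
  have e := (Fintype.equivFin κ)
  have h1 : ∑ i, f i ^ 2 = ∑ i, f (e.symm i) ^ 2 :=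
    (Equiv.sum_comp e.symm (fun i => f i ^ 2)).symm
  rw [h1] at hs
  obtain ⟨h2, h3, h4⟩ := h _ (fun i => f (e.symm i)) y z hs
  refine ⟨fun i => ?_, h3, h4⟩
  have := h2 (e i)
  simpa using this

theorem Str3.fintype {c1 c1' c2 c3 : E} (h : Str3 E c1 c1' c2 c3) {κ : Type*} [Fintype κ]
    (f : κ → E) (x x' y : E)
    (hs : c1 * x ^ 2 + c1' * x' ^ 2 + c2 * y ^ 2 + c3 * ∑ i, f i ^ 2 = 0) :
    (∀ i, f i = 0) ∧ x = 0 ∧ x' = 0 ∧ y = 0 := by
  have e := (Fintype.equivFin κ)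
  have h1 : ∑ i, f i ^ 2 = ∑ i, f (e.symm i) ^ 2 :=
    (Equiv.sum_comp e.symm (fun i => f i ^ 2)).symm
  rw [h1] at hs
  obtain ⟨h2, h3, h4, h5⟩ := h _ (fun i => f (e.symm i)) x x' y hs
  refine ⟨fun i => ?_, h3, h4, h5⟩
  have := h2 (e i)
  simpa using this

/-- solving `a q + b r = 0`. -/
theorem exists_param {a b : E} (hab : a ≠ 0 ∨ b ≠ 0) {κ : Type*} (q r : κ → E)
    (h : ∀ k, a * q k + b * r k = 0) :
    ∃ l : κ → E, ∀ k, q k = -(l k * b) ∧ r k = l k * a := by
  by_cases ha : a = 0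
  · have hb : b ≠ 0 := by
      rcases hab with h | h
      · exact absurd ha h
      · exact h
    refine ⟨fun k => -(q k / b), fun k => ⟨?_, ?_⟩⟩
    · field_simp
    · have := h k
      rw [ha, zero_mul, zero_add] at this
      rw [ha, mul_zero]
      exact (mul_eq_zero.mp this).resolve_left hb
  · refine ⟨fun k => r k / a, fun k => ⟨?_, ?_⟩⟩
    · have := h k
      field_simp
      linear_combination this
    · field_simp

theorem local1 {c1 c2 c3 : E} (h : Str1 E c1 c2 c3) {l : ℕ} (t : Fin l → E)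
    (ht : ∃ k, t k ≠ 0) {n : ℕ} (p q r : Fin n → E) {a b : E} (hab : a ≠ 0 ∨ b ≠ 0)
    (hperp : ∀ k, a * q k + b * r k = 0)
    (hsum : c1 * (∑ k, t k ^ 2) * ∑ k, p k ^ 2 + c2 * ∑ k, q k ^ 2 + c3 * ∑ k, r k ^ 2 = 0) :
    ∀ k, p k = 0 ∧ q k = 0 ∧ r k = 0 := by
  obtain ⟨lam, hlam⟩ := exists_param hab q r hperp
  have hq : ∑ k, q k ^ 2 = (∑ k, lam k ^ 2) * b ^ 2 := by
    rw [Finset.sum_mul]
    refine Finset.sum_congr rfl fun k _ => ?_
    rw [(hlam k).1]; ring
  have hr : ∑ k, r k ^ 2 = (∑ k, lam k ^ 2) * a ^ 2 := by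
    rw [Finset.sum_mul]
    refine Finset.sum_congr rfl fun k _ => ?_
    rw [(hlam k).2]; ring
  set L := ∑ k, lam k ^ 2 with hL
  have hprod : ∑ x : (Fin l × Fin n) × Fin n, (t x.1.1 * p x.1.2 * lam x.2) ^ 2
      = (∑ k, t k ^ 2) * (∑ k, p k ^ 2) * L := by
    rw [Fintype.sum_prod_type, Fintype.sum_prod_type, hL, Finset.sum_mul_sum, Finset.sum_mul]
    refine Finset.sum_congr rfl fun i _ => ?_
    rw [Finset.sum_mul_sum]
    refine Finset.sum_congr rfl fun j _ => ?_
    refine Finset.sum_congr rfl fun k _ => ?_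
    ring
  have h1 : c1 * ∑ x : (Fin l × Fin n) × Fin n, (t x.1.1 * p x.1.2 * lam x.2) ^ 2
      + c2 * (L * b) ^ 2 + c3 * (L * a) ^ 2 = 0 := by
    rw [hprod]
    rw [hq, hr] at hsum
    linear_combination L * hsum
  obtain ⟨-, h2, h3⟩ := h.fintype _ _ _ h1
  have hL0 : L = 0 := by
    rcases hab with hh | hh
    · exact (mul_eq_zero.mp h3).resolve_right hh
    · exact (mul_eq_zero.mp h2).resolve_right hh
  have hlam0 : ∀ k, lam k = 0 := by
    have := h.fintype lam 0 0 (by rw [← hL, hL0]; ring)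
    exact this.1
  have hprod2 : ∑ x : Fin l × Fin n, (t x.1 * p x.2) ^ 2
      = (∑ k, t k ^ 2) * (∑ k, p k ^ 2) := by
    rw [Fintype.sum_prod_type, Finset.sum_mul_sum]
    refine Finset.sum_congr rfl fun i _ => ?_
    refine Finset.sum_congr rfl fun j _ => ?_
    ring
  have h4 : c1 * ∑ x : Fin l × Fin n, (t x.1 * p x.2) ^ 2 + c2 * 0 ^ 2 + c3 * 0 ^ 2 = 0 := by
    rw [hprod2]
    rw [hq, hr, hL0] at hsum
    linear_combination hsum
  obtain ⟨h5, -, -⟩ := h.fintype _ _ _ h4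
  obtain ⟨k0, hk0⟩ := ht
  intro k
  refine ⟨?_, ?_, ?_⟩
  · exact (mul_eq_zero.mp (h5 (k0, k))).resolve_left hk0
  · rw [(hlam k).1, hlam0 k]; ring
  · rw [(hlam k).2, hlam0 k]; ring

theorem local3 {c1 c1' c2 c3 : E} (h : Str3 E c1 c1' c2 c3) (x x' : E)
    (hx : x ≠ 0 ∨ x' ≠ 0) {n : ℕ} (p q r : Fin n → E) {a b : E} (hab : a ≠ 0 ∨ b ≠ 0)
    (hperp : ∀ k, a * p k + b * q k = 0)
    (hsum : (c1 * x ^ 2 + c1' * x' ^ 2) * ∑ k, p k ^ 2 + c2 * ∑ k, q k ^ 2
      + c3 * ∑ k, r k ^ 2 = 0) :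
    ∀ k, p k = 0 ∧ q k = 0 ∧ r k = 0 := by
  obtain ⟨lam, hlam⟩ := exists_param hab p q hperp
  have hp : ∑ k, p k ^ 2 = (∑ k, lam k ^ 2) * b ^ 2 := by
    rw [Finset.sum_mul]
    refine Finset.sum_congr rfl fun k _ => ?_
    rw [(hlam k).1]; ring
  have hq : ∑ k, q k ^ 2 = (∑ k, lam k ^ 2) * a ^ 2 := by
    rw [Finset.sum_mul]
    refine Finset.sum_congr rfl fun k _ => ?_
    rw [(hlam k).2]; ring
  set L := ∑ k, lam k ^ 2 with hL
  have hprod : ∑ x : Fin n × Fin n, (r x.1 * lam x.2) ^ 2 = (∑ k, r k ^ 2) * L := by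
    rw [Fintype.sum_prod_type, hL, Finset.sum_mul_sum]
    refine Finset.sum_congr rfl fun i _ => ?_
    refine Finset.sum_congr rfl fun j _ => ?_
    ring
  have h1 : c1 * (x * L * b) ^ 2 + c1' * (x' * L * b) ^ 2 + c2 * (L * a) ^ 2
      + c3 * ∑ x : Fin n × Fin n, (r x.1 * lam x.2) ^ 2 = 0 := by
    rw [hprod]
    rw [hp, hq] at hsum
    linear_combination L * hsum
  obtain ⟨-, h2, h3, h4⟩ := h.fintype _ _ _ _ h1
  have hLb : L * b = 0 := by
    rcases hx with hh | hh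
    · rw [mul_assoc] at h2
      exact (mul_eq_zero.mp h2).resolve_left hh
    · rw [mul_assoc] at h3
      exact (mul_eq_zero.mp h3).resolve_left hh
  have hL0 : L = 0 := by
    rcases hab with hh | hh
    · exact (mul_eq_zero.mp h4).resolve_right hh
    · exact (mul_eq_zero.mp hLb).resolve_right hh
  have hlam0 : ∀ k, lam k = 0 := by
    have := h.fintype lam 0 0 0 (by rw [← hL, hL0]; ring)
    exact this.1
  have hr0 : ∀ k, r k = 0 := by
    have := h.fintype r 0 0 0 (by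
      rw [hp, hq, hL0] at hsum
      linear_combination hsum)
    exact this.1
  intro k
  refine ⟨?_, ?_, hr0 k⟩
  · rw [(hlam k).1, hlam0 k]; ring
  · rw [(hlam k).2, hlam0 k]; ring

end

section
variable {F : Type*} [Field F]

theorem Str1.springer {c1 c2 c3 : F} (h : Str1 F c1 c2 c3) (p : F[X]) [hp : Fact (Irreducible p)]
    (hodd : Odd p.natDegree) :
    Str1 (AdjoinRoot p) (AdjoinRoot.of p c1) (AdjoinRoot.of p c2) (AdjoinRoot.of p c3) := by
  intro n f y z hs
  have hd : Aniso (R := F) (ι := Fin n ⊕ Fin 2) (Sum.elim (fun _ => c1) ![c2, c3]) := by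
    intro x hx
    rw [Fintype.sum_sum_type, Fin.sum_univ_two] at hx
    simp only [Sum.elim_inl, Sum.elim_inr, Matrix.cons_val_zero, Matrix.cons_val_one] at hx
    rw [← Finset.mul_sum, ← add_assoc] at hx
    obtain ⟨h1, h2, h3⟩ := h n _ _ _ hx
    rintro (i | i)
    · exact h1 i
    · fin_cases i
      · exact h2
      · exact h3
  have := MP_14789b_nt.springer _ hd p hp.out hodd (Sum.elim f ![y, z]) (by
    rw [Fintype.sum_sum_type, Fin.sum_univ_two]
    simp only [Sum.elim_inl, Sum.elim_inr, Matrix.cons_val_zero, Matrix.cons_val_one]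
    rw [← Finset.mul_sum, ← add_assoc]
    exact hs)
  refine ⟨fun i => this (Sum.inl i), this (Sum.inr 0), this (Sum.inr 1)⟩

theorem Str3.springer {c1 c1' c2 c3 : F} (h : Str3 F c1 c1' c2 c3) (p : F[X])
    [hp : Fact (Irreducible p)] (hodd : Odd p.natDegree) :
    Str3 (AdjoinRoot p) (AdjoinRoot.of p c1) (AdjoinRoot.of p c1') (AdjoinRoot.of p c2)
      (AdjoinRoot.of p c3) := by
  intro n f x x' y hs
  have hd : Aniso (R := F) (ι := Fin 3 ⊕ Fin n) (Sum.elim ![c1, c1', c2] (fun _ => c3)) := by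
    intro x hx
    rw [Fintype.sum_sum_type, Fin.sum_univ_three] at hx
    simp only [Sum.elim_inl, Sum.elim_inr, Matrix.cons_val_zero, Matrix.cons_val_one,
      Matrix.cons_val] at hx
    rw [← Finset.mul_sum] at hx
    obtain ⟨h1, h2, h3, h4⟩ := h n _ _ _ _ hx
    rintro (i | i)
    · fin_cases i
      · exact h2
      · exact h3
      · exact h4
    · exact h1 i
  have := MP_14789b_nt.springer _ hd p hp.out hodd (Sum.elim ![x, x', y] f) (by
    rw [Fintype.sum_sum_type, Fin.sum_univ_three]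
    simp only [Sum.elim_inl, Sum.elim_inr, Matrix.cons_val_zero, Matrix.cons_val_one,
      Matrix.cons_val]
    rw [← Finset.mul_sum]
    exact hs)
  refine ⟨fun i => this (Sum.inr i), this (Sum.inl 0), this (Sum.inl 1), this (Sum.inl 2)⟩

/-- A finite family of polynomials, not all zero, has a largest degree. -/
theorem exists_max_coeff {κ : Type*} [Fintype κ] (g : κ → F[X]) (hg : ∃ k, g k ≠ 0) :
    ∃ d, (∀ k, (g k).natDegree ≤ d) ∧ ∃ k, (g k).coeff d ≠ 0 := by
  obtain ⟨k0, hk0⟩ := hg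
  obtain ⟨k1, -, hk1⟩ := Finset.exists_max_image Finset.univ (fun k => (g k).degree)
    ⟨k0, Finset.mem_univ _⟩
  have hne : g k1 ≠ 0 := by
    intro h
    have := hk1 k0 (Finset.mem_univ _)
    rw [h, degree_zero, le_bot_iff, degree_eq_bot] at this
    exact hk0 this
  refine ⟨(g k1).natDegree, fun k => natDegree_le_natDegree (hk1 k (Finset.mem_univ _)), k1, ?_⟩
  exact fun h => hne (leadingCoeff_eq_zero.mp h)

/-- The main criterion, primitive polynomial form. -/
theorem criterion_prim {c1 c2 c3 : F} {l : ℕ} (w : Fin l → F) (hw : ∃ k, w k ≠ 0)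
    (h1 : Str1 F c1 c2 c3) (h3 : Str3 F c1 (c1 * ∑ k, w k ^ 2) c2 c3)
    (x1 x2 x3 : F[X]) (hxprim : ∀ π : F[X], Irreducible π → ¬ (π ∣ x1 ∧ π ∣ x2 ∧ π ∣ x3))
    {n : ℕ} (p q r : Fin n → F[X])
    (hprim : ∀ π : F[X], Irreducible π → ¬ (∀ k, π ∣ p k ∧ π ∣ q k ∧ π ∣ r k))
    (hperp : ∀ k, x1 * p k + x2 * q k + x3 * r k = 0)
    (hsum : C c1 * (X ^ 2 + C (∑ k, w k ^ 2)) * ∑ k, p k ^ 2 + C c2 * ∑ k, q k ^ 2
      + C c3 * ∑ k, r k ^ 2 = 0) : False := by
  -- finite places, first claim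
  have claim1 : ∀ π : F[X], Irreducible π → Odd π.natDegree → ¬ π ∣ x1 := by
    intro π hπ hodd hdvd
    have : Fact (Irreducible π) := ⟨hπ⟩
    have hh := h1.springer π hodd
    have hab : AdjoinRoot.mk π x2 ≠ 0 ∨ AdjoinRoot.mk π x3 ≠ 0 := by
      by_contra hcon
      push Not at hcon
      rw [AdjoinRoot.mk_eq_zero, AdjoinRoot.mk_eq_zero] at hcon
      exact hxprim π hπ ⟨hdvd, hcon.1, hcon.2⟩
    have hx10 : AdjoinRoot.mk π x1 = 0 := AdjoinRoot.mk_eq_zero.mpr hdvd
    have key := local1 hh (l := l + 1)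
      (Fin.cons (AdjoinRoot.root π) (fun k => AdjoinRoot.of π (w k)))
      (by
        obtain ⟨k, hk⟩ := hw
        refine ⟨k.succ, ?_⟩
        rw [Fin.cons_succ]
        intro h
        apply hk
        rwa [← map_zero (AdjoinRoot.of π), (AdjoinRoot.of π).injective.eq_iff] at h)
      (fun k => AdjoinRoot.mk π (p k)) (fun k => AdjoinRoot.mk π (q k))
      (fun k => AdjoinRoot.mk π (r k)) hab
      (by
        intro k
        have := congrArg (AdjoinRoot.mk π) (hperp k)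
        rw [map_add, map_add, map_mul, map_mul, map_mul, hx10, zero_mul, zero_add, map_zero]
          at this
        exact this)
      (by
        have := congrArg (AdjoinRoot.mk π) hsum
        simp only [map_add, map_mul, map_sum, map_pow, map_zero, AdjoinRoot.mk_C,
          AdjoinRoot.mk_X] at this
        rw [Fin.sum_univ_succ]
        simp only [Fin.cons_zero, Fin.cons_succ]
        exact this)
    refine hprim π hπ fun k => ?_
    obtain ⟨ha, hb, hc⟩ := key k
    exact ⟨AdjoinRoot.mk_eq_zero.mp ha, AdjoinRoot.mk_eq_zero.mp hb, AdjoinRoot.mk_eq_zero.mp hc⟩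
  -- finite places, third claim
  have claim3 : ∀ π : F[X], Irreducible π → Odd π.natDegree → ¬ π ∣ x3 := by
    intro π hπ hodd hdvd
    have : Fact (Irreducible π) := ⟨hπ⟩
    have hh := h3.springer π hodd
    have hab : AdjoinRoot.mk π x1 ≠ 0 ∨ AdjoinRoot.mk π x2 ≠ 0 := by
      by_contra hcon
      push Not at hcon
      rw [AdjoinRoot.mk_eq_zero, AdjoinRoot.mk_eq_zero] at hcon
      exact hxprim π hπ ⟨hcon.1, hcon.2, hdvd⟩
    have hx30 : AdjoinRoot.mk π x3 = 0 := AdjoinRoot.mk_eq_zero.mpr hdvd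
    have key := local3 hh (AdjoinRoot.root π) 1 (Or.inr one_ne_zero)
      (fun k => AdjoinRoot.mk π (p k)) (fun k => AdjoinRoot.mk π (q k))
      (fun k => AdjoinRoot.mk π (r k)) hab
      (by
        intro k
        have := congrArg (AdjoinRoot.mk π) (hperp k)
        rw [map_add, map_add, map_mul, map_mul, map_mul, hx30, zero_mul, add_zero, map_zero]
          at this
        exact this)
      (by
        have := congrArg (AdjoinRoot.mk π) hsum
        simp only [map_add, map_mul, map_sum, map_pow, map_zero, AdjoinRoot.mk_C,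
          AdjoinRoot.mk_X] at this
        simp only [map_mul, map_sum, map_pow]
        linear_combination this)
    refine hprim π hπ fun k => ?_
    obtain ⟨ha, hb, hc⟩ := key k
    exact ⟨AdjoinRoot.mk_eq_zero.mp ha, AdjoinRoot.mk_eq_zero.mp hb, AdjoinRoot.mk_eq_zero.mp hc⟩
  -- data at infinity
  have hx1 : x1 ≠ 0 := by
    rintro rfl
    exact claim1 X irreducible_X (by simp) (dvd_zero _)
  have hx3 : x3 ≠ 0 := by
    rintro rfl
    exact claim3 X irreducible_X (by simp) (dvd_zero _)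
  obtain ⟨D, hD, hDne⟩ := exists_max_coeff (κ := Fin 3) ![x1, X * x2, X * x3] ⟨0, hx1⟩
  have hD1 : x1.natDegree ≤ D := hD 0
  have hD2 : (X * x2).natDegree ≤ D := hD 1
  have hD3 : (X * x3).natDegree ≤ D := hD 2
  have hnz : ∃ k, (Sum.elim (fun k => X * p k) (Sum.elim q r) : Fin n ⊕ (Fin n ⊕ Fin n) → F[X]) k
      ≠ 0 := by
    by_contra hcon
    push Not at hcon
    refine hprim X irreducible_X fun k => ?_
    have ha := hcon (Sum.inl k)
    have hb := hcon (Sum.inr (Sum.inl k))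
    have hc := hcon (Sum.inr (Sum.inr k))
    simp only [Sum.elim_inl, Sum.elim_inr] at ha hb hc
    rw [hb, hc, (mul_eq_zero.mp ha).resolve_left X_ne_zero]
    simp
  obtain ⟨d, hd, hdne⟩ := exists_max_coeff _ hnz
  have hdp : ∀ k, (X * p k).natDegree ≤ d := fun k => hd (Sum.inl k)
  have hdq : ∀ k, (q k).natDegree ≤ d := fun k => hd (Sum.inr (Sum.inl k))
  have hdr : ∀ k, (r k).natDegree ≤ d := fun k => hd (Sum.inr (Sum.inr k))
  have hperp' : ∀ k, x1.coeff D * (X * p k).coeff d + (X * x2).coeff D * (q k).coeff d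
      + (X * x3).coeff D * (r k).coeff d = 0 := by
    intro k
    rw [← coeff_mul_add_eq_of_natDegree_le hD1 (hdp k), ← coeff_mul_add_eq_of_natDegree_le hD2 (hdq k),
      ← coeff_mul_add_eq_of_natDegree_le hD3 (hdr k), ← coeff_add, ← coeff_add]
    have : x1 * (X * p k) + X * x2 * q k + X * x3 * r k = 0 := by
      linear_combination X * hperp k
    rw [this, coeff_zero]
  have hp2 : ∀ k, (p k ^ 2).coeff (2 * d) = 0 := by
    intro k
    by_cases hpk : p k = 0
    · rw [hpk]; simp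
    · have h5 := hdp k
      rw [natDegree_X_mul hpk] at h5
      refine coeff_eq_zero_of_natDegree_lt ?_
      have : (p k ^ 2).natDegree ≤ 2 * (p k).natDegree := natDegree_pow_le
      omega
  have hsum' : c1 * ∑ k, (X * p k).coeff d ^ 2 + c2 * ∑ k, (q k).coeff d ^ 2
      + c3 * ∑ k, (r k).coeff d ^ 2 = 0 := by
    have e1 : ∀ k, (X * p k).coeff d ^ 2 = ((X * p k) ^ 2).coeff (2 * d) := fun k =>
      (coeff_pow_of_natDegree_le (hdp k)).symm
    have e2 : ∀ k, (q k).coeff d ^ 2 = ((q k) ^ 2).coeff (2 * d) := fun k =>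
      (coeff_pow_of_natDegree_le (hdq k)).symm
    have e3 : ∀ k, (r k).coeff d ^ 2 = ((r k) ^ 2).coeff (2 * d) := fun k =>
      (coeff_pow_of_natDegree_le (hdr k)).symm
    simp only [e1, e2, e3]
    rw [← finsetSum_coeff, ← finsetSum_coeff, ← finsetSum_coeff, ← coeff_C_mul, ← coeff_C_mul,
      ← coeff_C_mul, ← coeff_add, ← coeff_add]
    have e4 : C c1 * ∑ k, (X * p k) ^ 2 + C c2 * ∑ k, q k ^ 2 + C c3 * ∑ k, r k ^ 2
        = - (C (c1 * ∑ k, w k ^ 2) * ∑ k, p k ^ 2) := by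
      have : ∑ k, (X * p k) ^ 2 = X ^ 2 * ∑ k, p k ^ 2 := by
        rw [Finset.mul_sum]
        exact Finset.sum_congr rfl fun k _ => by ring
      rw [this, C_mul]
      linear_combination hsum
    rw [e4, coeff_neg, coeff_C_mul, finsetSum_coeff]
    simp [hp2]
  have hnotall : ¬ ∀ k, (X * p k).coeff d = 0 ∧ (q k).coeff d = 0 ∧ (r k).coeff d = 0 := by
    intro hall
    obtain ⟨k, hk⟩ := hdne
    rcases k with k | k | k
    · exact hk (hall k).1
    · exact hk (hall k).2.1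
    · exact hk (hall k).2.2
  -- infinite place, first claim
  have hinf1 : x1.coeff D ≠ 0 := by
    intro h0
    have hab : (X * x2).coeff D ≠ 0 ∨ (X * x3).coeff D ≠ 0 := by
      obtain ⟨k, hk⟩ := hDne
      fin_cases k
      · exact absurd h0 hk
      · exact Or.inl hk
      · exact Or.inr hk
    have key := local1 h1 (l := 1) (fun _ => 1) ⟨0, one_ne_zero⟩
      (fun k => (X * p k).coeff d) (fun k => (q k).coeff d) (fun k => (r k).coeff d) hab
      (by
        intro k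
        have := hperp' k
        rw [h0, zero_mul, zero_add] at this
        exact this)
      (by
        simp only [one_pow, Finset.sum_const, Finset.card_univ, Fintype.card_fin, one_smul,
          mul_one]
        exact hsum')
    exact hnotall key
  have hinf3 : (X * x3).coeff D ≠ 0 := by
    intro h0
    have hab : x1.coeff D ≠ 0 ∨ (X * x2).coeff D ≠ 0 := by
      obtain ⟨k, hk⟩ := hDne
      fin_cases k
      · exact Or.inl hk
      · exact Or.inr hk
      · exact absurd h0 hk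
    have key := local3 h3 1 0 (Or.inl one_ne_zero)
      (fun k => (X * p k).coeff d) (fun k => (q k).coeff d) (fun k => (r k).coeff d) hab
      (by
        intro k
        have := hperp' k
        rw [h0, zero_mul, add_zero] at this
        exact this)
      (by
        linear_combination hsum')
    exact hnotall key
  have hdeg1 : x1.natDegree = D := le_antisymm hD1 (le_natDegree_of_ne_zero hinf1)
  have hdeg3 : x3.natDegree + 1 = D := by
    rw [← natDegree_X_mul hx3]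
    exact le_antisymm hD3 (le_natDegree_of_ne_zero hinf3)
  have hev1 : ¬ Odd x1.natDegree := by
    intro hodd
    obtain ⟨π, hπ, hπo, hπd⟩ := exists_odd_irreducible_factor _ x1 le_rfl hodd
    exact claim1 π hπ hπo hπd
  have hev3 : ¬ Odd x3.natDegree := by
    intro hodd
    obtain ⟨π, hπ, hπo, hπd⟩ := exists_odd_irreducible_factor _ x3 le_rfl hodd
    exact claim3 π hπ hπo hπd
  rw [Nat.not_odd_iff_even] at hev1 hev3
  obtain ⟨a, ha⟩ := hev1
  obtain ⟨b, hb⟩ := hev3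
  omega

/-- Extraction of a primitive family. -/
theorem exists_primitive {κ : Type*} [Fintype κ] :
    ∀ (N : ℕ) (g : κ → F[X]), (∃ k, g k ≠ 0) → ∑ k, (g k).natDegree ≤ N →
      ∃ (h : F[X]) (g' : κ → F[X]), h ≠ 0 ∧ (∀ k, g k = h * g' k) ∧
        ∀ π : F[X], Irreducible π → ¬ ∀ k, π ∣ g' k := by
  intro N
  induction N using Nat.strong_induction_on with
  | _ N ih =>
  intro g hg hN
  by_cases hcase : ∃ π : F[X], Irreducible π ∧ ∀ k, π ∣ g k
  · obtain ⟨π, hπ, hdvd⟩ := hcase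
    choose g1 hg1 using hdvd
    obtain ⟨k0, hk0⟩ := hg
    have hk1 : g1 k0 ≠ 0 := by
      intro h
      apply hk0
      rw [hg1, h, mul_zero]
    have hπdeg : 0 < π.natDegree := hπ.natDegree_pos
    have hlt : ∑ k, (g1 k).natDegree < ∑ k, (g k).natDegree := by
      refine Finset.sum_lt_sum (fun k _ => ?_) ⟨k0, Finset.mem_univ _, ?_⟩
      · by_cases hk : g1 k = 0
        · rw [hk]; simp
        · rw [hg1 k, natDegree_mul hπ.ne_zero hk]
          omega
      · rw [hg1 k0, natDegree_mul hπ.ne_zero hk1]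
        omega
    obtain ⟨h, g', hh, hg', hprim⟩ := ih _ (lt_of_lt_of_le hlt hN) g1 ⟨k0, hk1⟩ le_rfl
    refine ⟨π * h, g', mul_ne_zero hπ.ne_zero hh, fun k => ?_, hprim⟩
    rw [hg1 k, hg' k]
    ring
  · push Not at hcase
    refine ⟨1, g, one_ne_zero, fun k => by rw [one_mul], fun π hπ hall => ?_⟩
    obtain ⟨k, hk⟩ := hcase π hπ
    exact hk (hall k)

/-- The main criterion, polynomial form. -/
theorem criterion_poly {c1 c2 c3 : F} {l : ℕ} (w : Fin l → F) (hw : ∃ k, w k ≠ 0)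
    (h1 : Str1 F c1 c2 c3) (h3 : Str3 F c1 (c1 * ∑ k, w k ^ 2) c2 c3)
    (x : Fin 3 → F[X]) (hx : ∃ j, x j ≠ 0)
    {n : ℕ} (v : Fin n → Fin 3 → F[X])
    (hperp : ∀ k, ∑ j, x j * v k j = 0)
    (hsum : C c1 * (X ^ 2 + C (∑ k, w k ^ 2)) * ∑ k, v k 0 ^ 2 + C c2 * ∑ k, v k 1 ^ 2
      + C c3 * ∑ k, v k 2 ^ 2 = 0) : ∀ k j, v k j = 0 := by
  by_contra hcon
  push Not at hcon
  obtain ⟨k0, j0, hkj⟩ := hcon
  obtain ⟨h, x', hh, hx', hxprim⟩ := exists_primitive _ x hx le_rfl
  obtain ⟨h', g', hh', hg', hprim⟩ := exists_primitive (κ := Fin n × Fin 3) _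
    (fun y => v y.1 y.2) ⟨(k0, j0), hkj⟩ le_rfl
  have hv : ∀ k j, v k j = h' * g' (k, j) := fun k j => hg' (k, j)
  refine criterion_prim w hw h1 h3 (x' 0) (x' 1) (x' 2) ?_ (fun k => g' (k, 0))
    (fun k => g' (k, 1)) (fun k => g' (k, 2)) ?_ ?_ ?_
  · rintro π hπ ⟨ha, hb, hc⟩
    refine hxprim π hπ fun j => ?_
    fin_cases j
    · exact ha
    · exact hb
    · exact hc
  · intro π hπ hall
    refine hprim π hπ ?_
    rintro ⟨k, j⟩
    obtain ⟨ha, hb, hc⟩ := hall k
    fin_cases j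
    · exact ha
    · exact hb
    · exact hc
  · intro k
    have := hperp k
    rw [Fin.sum_univ_three, hx' 0, hx' 1, hx' 2, hv, hv, hv] at this
    have h5 : (h * h') * (x' 0 * g' (k, 0) + x' 1 * g' (k, 1) + x' 2 * g' (k, 2)) = 0 := by
      linear_combination this
    exact (mul_eq_zero.mp h5).resolve_left (mul_ne_zero hh hh')
  · have h5 : h' ^ 2 * (C c1 * (X ^ 2 + C (∑ k, w k ^ 2)) * ∑ k, g' (k, 0) ^ 2
        + C c2 * ∑ k, g' (k, 1) ^ 2 + C c3 * ∑ k, g' (k, 2) ^ 2) = 0 := by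
      have e : ∀ j, ∑ k, v k j ^ 2 = h' ^ 2 * ∑ k, g' (k, j) ^ 2 := by
        intro j
        rw [Finset.mul_sum]
        refine Finset.sum_congr rfl fun k _ => ?_
        rw [hv]; ring
      rw [e, e, e] at hsum
      linear_combination hsum
    exact (mul_eq_zero.mp h5).resolve_left (pow_ne_zero _ hh')

end

end Pool.Agent.Lib.MP_14789b_nt
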