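import Mathlib
import Pool.Agent.Lib.MP_14789b_nt.Criterion

open Polynomial

namespace Pool.Agent.Lib.MP_14789b_nt

/-- `F` is formally real. -/
def FReal (F : Type*) [Field F] : Prop :=
  ∀ (n : ℕ) (f : Fin n → F), ∑ i, f i ^ 2 = 0 → ∀ i, f i = 0

/-- Every nonreal simple finite extension has level at most two. -/
def IStar (F : Type*) [Field F] : Prop :=
  ∀ p : F[X], Irreducible p → (∃ (n : ℕ) (A : Fin n → F[X]), p ∣ 1 + ∑ i, A i ^ 2) →
    ∃ A B : F[X], p ∣ 1 + A ^ 2 + B ^ 2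

/-- sums of four squares -/
def S4 {K : Type*} [CommRing K] (x : K) : Prop :=
  ∃ a b c d : K, x = a ^ 2 + b ^ 2 + c ^ 2 + d ^ 2

theorem S4.mul {K : Type*} [CommRing K] {x y : K} (hx : S4 x) (hy : S4 y) : S4 (x * y) := by
  obtain ⟨a, b, c, d, rfl⟩ := hx
  obtain ⟨a', b', c', d', rfl⟩ := hy
  exact ⟨_, _, _, _, (euler_four_squares a b c d a' b' c' d').symm⟩

theorem S4.map {K L : Type*} [CommRing K] [CommRing L] (φ : K →+* L) {x : K} (hx : S4 x) :
    S4 (φ x) := by
  obtain ⟨a, b, c, d, rfl⟩ := hx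
  exact ⟨φ a, φ b, φ c, φ d, by simp⟩

theorem S4.sq {K : Type*} [CommRing K] (x : K) : S4 (x ^ 2) := ⟨x, 0, 0, 0, by ring⟩

theorem S4.inv {K : Type*} [Field K] {x : K} (hx : S4 x) : S4 x⁻¹ := by
  by_cases h : x = 0
  · rw [h, inv_zero]
    exact ⟨0, 0, 0, 0, by ring⟩
  · have : x⁻¹ = x * (x⁻¹) ^ 2 := by field_simp
    rw [this]
    exact hx.mul (S4.sq _)

section
variable {F : Type*} [Field F]

theorem FReal.fintype (hF : FReal F) {κ : Type*} [Fintype κ] (f : κ → F)
    (hs : ∑ i, f i ^ 2 = 0) : ∀ i, f i = 0 := by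
  have e := (Fintype.equivFin κ)
  have h1 : ∑ i, f i ^ 2 = ∑ i, f (e.symm i) ^ 2 :=
    (Equiv.sum_comp e.symm (fun i => f i ^ 2)).symm
  rw [h1] at hs
  intro i
  have := hF _ (fun i => f (e.symm i)) hs (e i)
  simpa using this

theorem FReal.three (hF : FReal F) {a b c : F} (h : a ^ 2 + b ^ 2 + c ^ 2 = 0) :
    a = 0 ∧ b = 0 ∧ c = 0 := by
  have := hF 3 ![a, b, c] (by simpa [Fin.sum_univ_three] using h)
  exact ⟨this 0, this 1, this 2⟩

theorem FReal.two_ne_zero (hF : FReal F) : (2 : F) ≠ 0 := by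
  intro h
  have := hF.three (a := 1) (b := 1) (c := 0) (by linear_combination h)
  exact one_ne_zero this.1

theorem T4 (hF : FReal F) (hI : IStar F) {n : ℕ} (w : Fin n → F) : S4 (∑ i, w i ^ 2) := by
  set c := ∑ i, w i ^ 2 with hc
  by_cases hc0 : c = 0
  · rw [hc0]
    exact ⟨0, 0, 0, 0, by ring⟩
  have h2 := hF.two_ne_zero
  have hdeg : (X ^ 2 + C c : F[X]).natDegree = 2 := by
    compute_degree!
  have hirr : Irreducible (X ^ 2 + C c : F[X]) := by
    refine irreducible_of_degree_le_three_of_not_isRoot (by rw [hdeg]; decide) ?_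
    intro x hx
    simp only [IsRoot.def, eval_add, eval_pow, eval_X, eval_C] at hx
    have h3 := hF.fintype (κ := Option (Fin n)) (fun o => o.elim x w) (by
      rw [Fintype.sum_option]
      simpa [hc] using hx)
    apply hc0
    rw [hc]
    refine Finset.sum_eq_zero fun i _ => ?_
    have := h3 (some i)
    simp only [Option.elim_some] at this
    rw [this]; ring
  obtain ⟨A, B, hAB⟩ := hI _ hirr ⟨n, fun i => C (w i / c) * X, by
    refine ⟨C (c⁻¹), ?_⟩
    have : ∑ i, (C (w i / c) * X : F[X]) ^ 2 = C (c⁻¹) * X ^ 2 := by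
      have h4 : ∀ i, (C (w i / c) * X : F[X]) ^ 2 = C (w i ^ 2) * (C ((c⁻¹) ^ 2) * X ^ 2) := by
        intro i
        rw [mul_pow, ← C_pow, ← mul_assoc, ← C_mul]
        congr 2
        field_simp
      simp only [h4]
      rw [← Finset.sum_mul, ← map_sum, ← hc, ← mul_assoc, ← C_mul]
      congr 2
      field_simp
    rw [this, add_mul, ← C_mul, mul_inv_cancel₀ hc0, C_1]
    ring⟩
  set p : F[X] := X ^ 2 + C c with hp
  have hA : (A % p).natDegree ≤ 1 := by
    have := natDegree_mod_lt A (q := p) (by rw [hdeg]; norm_num)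
    omega
  have hB : (B % p).natDegree ≤ 1 := by
    have := natDegree_mod_lt B (q := p) (by rw [hdeg]; norm_num)
    omega
  obtain ⟨a1, a0, hA'⟩ := exists_eq_X_add_C_of_natDegree_le_one hA
  obtain ⟨b1, b0, hB'⟩ := exists_eq_X_add_C_of_natDegree_le_one hB
  have hAB' : p ∣ 1 + (A % p) ^ 2 + (B % p) ^ 2 := by
    have h5 : p ∣ (1 + A ^ 2 + B ^ 2) - (1 + (A % p) ^ 2 + (B % p) ^ 2) := by
      refine ⟨(A + A % p) * (A / p) + (B + B % p) * (B / p), ?_⟩
      have e1 := EuclideanDomain.div_add_mod A p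
      have e2 := EuclideanDomain.div_add_mod B p
      linear_combination (-(A + A % p)) * e1 - (B + B % p) * e2
    exact (dvd_sub_right hAB).mp h5
  rw [hA', hB'] at hAB'
  obtain ⟨r, hr⟩ := hAB'
  have hexp : 1 + (C a1 * X + C a0) ^ 2 + (C b1 * X + C b0) ^ 2
      = C (a1 ^ 2 + b1 ^ 2) * X ^ 2 + C (2 * (a0 * a1 + b0 * b1)) * X
        + C (1 + a0 ^ 2 + b0 ^ 2) := by
    simp only [C_add, C_mul, C_pow, C_1, map_ofNat]
    ring
  rw [hexp] at hr
  obtain ⟨al, hal⟩ : ∃ al, al = a1 ^ 2 + b1 ^ 2 := ⟨_, rfl⟩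
  obtain ⟨be, hbe⟩ : ∃ be, be = 2 * (a0 * a1 + b0 * b1) := ⟨_, rfl⟩
  obtain ⟨ga, hga⟩ : ∃ ga, ga = 1 + a0 ^ 2 + b0 ^ 2 := ⟨_, rfl⟩
  rw [← hal, ← hbe, ← hga] at hr
  have hne : (C al * X ^ 2 + C be * X + C ga : F[X]) ≠ 0 := by
    intro h
    have := congrArg (fun q => coeff q 0) h
    simp at this
    have h6 := hF.three (a := 1) (b := a0) (c := b0) (by rw [hga] at this; linear_combination this)
    exact one_ne_zero h6.1
  have hr0 : r ≠ 0 := by
    rintro rfl
    rw [mul_zero] at hr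
    exact hne hr
  have hrdeg : r.natDegree = 0 := by
    have h7 : (C al * X ^ 2 + C be * X + C ga : F[X]).natDegree ≤ 2 := by
      compute_degree
    rw [hr, natDegree_mul hirr.ne_zero hr0, hdeg] at h7
    omega
  obtain ⟨k, rfl⟩ := natDegree_eq_zero.mp hrdeg
  have hc2 : a1 ^ 2 + b1 ^ 2 = k := by
    have := congrArg (fun q => coeff q 2) hr
    simp only [hp] at this
    rw [add_mul, ← C_mul, coeff_add, coeff_add, coeff_add, coeff_C_mul_X_pow, mul_comm (X ^ 2),
      coeff_C_mul_X_pow] at this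
    rw [← hal]
    simpa [coeff_X, coeff_C] using this
  have hc0' : 1 + a0 ^ 2 + b0 ^ 2 = c * k := by
    have := congrArg (fun q => coeff q 0) hr
    simp only [hp] at this
    rw [add_mul, ← C_mul, coeff_add, coeff_add, coeff_add, coeff_C_mul_X_pow, mul_comm (X ^ 2),
      coeff_C_mul_X_pow] at this
    rw [← hga]
    simpa [coeff_X, coeff_C] using this
  have hk : k ≠ 0 := by
    rintro rfl
    rw [mul_zero] at hc0'
    have h6 := hF.three (a := 1) (b := a0) (c := b0) (by linear_combination hc0')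
    exact one_ne_zero h6.1
  have hfin : c = ((1 + a0 ^ 2 + b0 ^ 2) * (a1 ^ 2 + b1 ^ 2)) * (k⁻¹) ^ 2 := by
    rw [hc2, hc0']
    field_simp
  rw [hfin]
  exact (S4.mul ⟨1, a0, b0, 0, by ring⟩ ⟨a1, b1, 0, 0, by ring⟩).mul (S4.sq _)

/-- leading coefficient of a sum of squares -/
theorem leadingCoeff_sum_sq (hF : FReal F) {κ : Type*} [Fintype κ] (g : κ → F[X])
    (hg : ∃ k, g k ≠ 0) :
    ∃ f : κ → F, (∑ k, g k ^ 2).leadingCoeff = ∑ k, f k ^ 2 ∧ ∑ k, g k ^ 2 ≠ 0 := by
  obtain ⟨d, hd, k1, hk1⟩ := exists_max_coeff g hg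
  have h1 := coeff_sum_diag (fun _ : κ => (1 : F)) g d hd
  have h2 := natDegree_sum_diag_le (fun _ : κ => (1 : F)) g d hd
  simp only [C_1, one_mul] at h1 h2
  have h3 : (∑ k, g k ^ 2).coeff (2 * d) ≠ 0 := by
    rw [h1]
    intro h
    exact hk1 (hF.fintype _ h k1)
  refine ⟨fun k => (g k).coeff d, ?_, ?_⟩
  · rw [← h1, leadingCoeff, le_antisymm h2 (le_natDegree_of_ne_zero h3)]
  · intro h
    rw [h] at h3
    simp at h3

end

section
variable {F : Type*} [Field F] {K : Type*} [Field K] [Algebra F[X] K] [IsFractionRing F[X] K]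

omit [IsFractionRing F[X] K] in
theorem S4_of_factors : ∀ (n : ℕ) (q : F[X]), q ≠ 0 → q.natDegree ≤ n →
    (∀ ρ : F[X], ρ.Monic → Irreducible ρ → ρ ∣ q → S4 (algebraMap F[X] K ρ)) →
    S4 (algebraMap F[X] K (C q.leadingCoeff)) → S4 (algebraMap F[X] K q) := by
  intro n
  induction n with
  | zero =>
    intro q hq hn _ hlc
    obtain ⟨k, rfl⟩ := natDegree_eq_zero.mp (by omega : q.natDegree = 0)
    simpa using hlc
  | succ n ih =>
    intro q hq hn hfac hlc
    by_cases hdeg : q.natDegree = 0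
    · obtain ⟨k, rfl⟩ := natDegree_eq_zero.mp hdeg
      simpa using hlc
    · have hnu : ¬ IsUnit q := fun h => hdeg (natDegree_eq_zero_of_isUnit h)
      obtain ⟨ρ, hρm, hρi, hρd⟩ := exists_monic_irreducible_factor q hnu
      obtain ⟨q', rfl⟩ := hρd
      have hq' : q' ≠ 0 := by rintro rfl; simp at hq
      have hρpos := hρi.natDegree_pos
      rw [natDegree_mul hρi.ne_zero hq'] at hn
      rw [map_mul]
      refine (hfac ρ hρm hρi (dvd_mul_right _ _)).mul (ih q' hq' (by omega) ?_ ?_)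
      · intro σ hσm hσi hσd
        exact hfac σ hσm hσi (hσd.mul_left _)
      · rw [leadingCoeff_mul, hρm.leadingCoeff, one_mul] at hlc
        exact hlc

omit [IsFractionRing F[X] K] in
theorem S4_C (hF : FReal F) (hI : IStar F) {κ : Type*} [Fintype κ] (w : κ → F) :
    S4 (algebraMap F[X] K (C (∑ i, w i ^ 2))) := by
  have e := (Fintype.equivFin κ)
  have h1 : ∑ i, w i ^ 2 = ∑ i, w (e.symm i) ^ 2 :=
    (Equiv.sum_comp e.symm (fun i => w i ^ 2)).symm
  rw [h1]
  exact ((T4 hF hI _).map C).map (algebraMap F[X] K)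

theorem S4_monic_irreducible (hF : FReal F) (hI : IStar F) :
    ∀ (n : ℕ) (π : F[X]), π.Monic → Irreducible π → π.natDegree = n →
      (∃ (m : ℕ) (A : Fin m → F[X]), π ∣ 1 + ∑ i, A i ^ 2) → S4 (algebraMap F[X] K π) := by
  intro n
  induction n using Nat.strong_induction_on with
  | _ n ih =>
  intro π hπm hπ hn hnr
  obtain ⟨A, B, hAB⟩ := hI π hπ hnr
  have hpos : 0 < π.natDegree := hπ.natDegree_pos
  have hA : (A % π).natDegree < π.natDegree := natDegree_mod_lt A (by omega)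
  have hB : (B % π).natDegree < π.natDegree := natDegree_mod_lt B (by omega)
  have hAB' : π ∣ 1 + (A % π) ^ 2 + (B % π) ^ 2 := by
    have h5 : π ∣ (1 + A ^ 2 + B ^ 2) - (1 + (A % π) ^ 2 + (B % π) ^ 2) := by
      refine ⟨(A + A % π) * (A / π) + (B + B % π) * (B / π), ?_⟩
      have e1 := EuclideanDomain.div_add_mod A π
      have e2 := EuclideanDomain.div_add_mod B π
      linear_combination (-(A + A % π)) * e1 - (B + B % π) * e2
    exact (dvd_sub_right hAB).mp h5
  set A' := A % π with hA'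
  set B' := B % π with hB'
  obtain ⟨q, hq⟩ := hAB'
  have hsum : ∑ k, (![1, A', B'] : Fin 3 → F[X]) k ^ 2 = π * q := by
    rw [Fin.sum_univ_three, ← hq]
    simp
  obtain ⟨f, hf, hne⟩ := leadingCoeff_sum_sq hF (![1, A', B'] : Fin 3 → F[X]) ⟨0, one_ne_zero⟩
  rw [hsum] at hf hne
  have hq0 : q ≠ 0 := right_ne_zero_of_mul hne
  have hqdeg : q.natDegree < π.natDegree := by
    have h6 : (1 + A' ^ 2 + B' ^ 2).natDegree ≤ 2 * (π.natDegree - 1) := by
      refine natDegree_add_le_of_degree_le (natDegree_add_le_of_degree_le ?_ ?_) ?_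
      · simp
      · have : (A' ^ 2).natDegree ≤ 2 * A'.natDegree := natDegree_pow_le
        omega
      · have : (B' ^ 2).natDegree ≤ 2 * B'.natDegree := natDegree_pow_le
        omega
    rw [hq, natDegree_mul hπ.ne_zero hq0] at h6
    omega
  have hS4q : S4 (algebraMap F[X] K q) := by
    refine S4_of_factors _ q hq0 le_rfl ?_ ?_
    · intro ρ hρm hρ hρq
      have hρdeg : ρ.natDegree ≤ q.natDegree := natDegree_le_of_dvd hρq hq0
      refine ih ρ.natDegree (by omega) ρ hρm hρ rfl ⟨2, ![A', B'], ?_⟩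
      rw [Fin.sum_univ_two]
      simp only [Matrix.cons_val_zero, Matrix.cons_val_one]
      rw [← add_assoc, hq]
      exact hρq.mul_left _
    · have : q.leadingCoeff = ∑ k, f k ^ 2 := by
        rw [← hf, leadingCoeff_mul, hπm.leadingCoeff, one_mul]
      rw [this]
      exact S4_C hF hI f
  have hqK : algebraMap F[X] K q ≠ 0 := by
    intro h
    exact hq0 ((IsFractionRing.injective F[X] K) (by rw [h, map_zero]))
  have hfin : algebraMap F[X] K π
      = algebraMap F[X] K (1 + A' ^ 2 + B' ^ 2) * (algebraMap F[X] K q)⁻¹ := by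
    rw [hq, map_mul]
    field_simp
  rw [hfin]
  refine S4.mul (S4.map _ ⟨1, A', B', 0, by ring⟩) hS4q.inv

omit [Field K] [Algebra F[X] K] [IsFractionRing F[X] K] in
theorem nonreal_factor {f h : F[X]} {κ : Type*} [Fintype κ] [DecidableEq κ] (g : κ → F[X])
    (hh : h ≠ 0) (hfg : h ^ 2 * f = ∑ k, g k ^ 2) {ρ : F[X]} (hρ : Irreducible ρ)
    (hdvd : ρ ∣ f) (hsq : ¬ ρ ^ 2 ∣ f) :
    ∃ A : κ → F[X], ρ ∣ 1 + ∑ i, A i ^ 2 := by
  obtain ⟨e, G, he, hG, hprim⟩ := exists_primitive (κ := Option κ) _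
    (fun o => o.elim h g) ⟨none, hh⟩ le_rfl
  have hhG : h = e * G none := hG none
  have hgG : ∀ k, g k = e * G (some k) := fun k => hG (some k)
  have hfg' : G none ^ 2 * f = ∑ k, G (some k) ^ 2 := by
    have h1 : e ^ 2 * (G none ^ 2 * f) = e ^ 2 * ∑ k, G (some k) ^ 2 := by
      rw [Finset.mul_sum]
      have h2 : ∀ k, e ^ 2 * G (some k) ^ 2 = g k ^ 2 := by
        intro k
        rw [hgG k]; ring
      simp only [h2]
      rw [← hfg, hhG]; ring
    exact mul_left_cancel₀ (pow_ne_zero 2 he) h1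
  have hρp : Prime ρ := hρ.prime
  have hex : ∃ j, ¬ ρ ∣ G (some j) := by
    by_contra hcon
    push Not at hcon
    have h3 : ρ ^ 2 ∣ G none ^ 2 * f := by
      rw [hfg']
      exact Finset.dvd_sum fun k _ => pow_dvd_pow_of_dvd (hcon k) 2
    have h4 : ρ ∣ G none := by
      by_contra h5
      have h6 : IsCoprime (ρ ^ 2) (G none ^ 2) :=
        ((hρ.coprime_iff_not_dvd).mpr h5).pow
      exact hsq (h6.dvd_of_dvd_mul_left h3)
    refine hprim ρ hρ ?_
    rintro (_ | k)
    · exact h4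
    · exact hcon k
  obtain ⟨j, hj⟩ := hex
  obtain ⟨a, b, hab⟩ := (hρ.coprime_iff_not_dvd).mpr hj
  -- a * ρ + b * G (some j) = 1
  refine ⟨fun i => if i = j then 0 else b * G (some i), ?_⟩
  have h7 : ∑ i, (if i = j then 0 else b * G (some i)) ^ 2
      = ∑ i, (b * G (some i)) ^ 2 - (b * G (some j)) ^ 2 := by
    rw [← Finset.add_sum_erase Finset.univ (fun i => (b * G (some i)) ^ 2) (Finset.mem_univ j),
      ← Finset.add_sum_erase Finset.univ
        (fun i => (if i = j then 0 else b * G (some i)) ^ 2) (Finset.mem_univ j)]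
    have : ∑ i ∈ Finset.univ.erase j, (if i = j then 0 else b * G (some i)) ^ 2
        = ∑ i ∈ Finset.univ.erase j, (b * G (some i)) ^ 2 := by
      refine Finset.sum_congr rfl fun i hi => ?_
      rw [if_neg (Finset.ne_of_mem_erase hi)]
    rw [this]
    simp
  have h8 : ∑ i, (b * G (some i)) ^ 2 = b ^ 2 * (G none ^ 2 * f) := by
    rw [hfg', Finset.mul_sum]
    exact Finset.sum_congr rfl fun k _ => by ring
  obtain ⟨f', rfl⟩ := hdvd
  rw [h7, h8]
  refine ⟨b ^ 2 * (G none ^ 2 * f') + a * (1 + b * G (some j)), ?_⟩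
  linear_combination (-(1 + b * G (some j))) * hab

theorem S4_psd (hF : FReal F) (hI : IStar F) {κ : Type*} [Fintype κ] [DecidableEq κ] :
    ∀ (n : ℕ) (f h : F[X]) (g : κ → F[X]), f ≠ 0 → f.natDegree ≤ n → h ≠ 0 →
      h ^ 2 * f = ∑ k, g k ^ 2 → S4 (algebraMap F[X] K f) := by
  intro n
  induction n using Nat.strong_induction_on with
  | _ n ih =>
  intro f h g hf hn hh hfg
  by_cases hsf : ∃ ρ : F[X], Irreducible ρ ∧ ρ ^ 2 ∣ f
  · obtain ⟨ρ, hρ, f', rfl⟩ := hsf
    have hf' : f' ≠ 0 := right_ne_zero_of_mul hf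
    have hρpos := hρ.natDegree_pos
    rw [natDegree_mul (pow_ne_zero _ hρ.ne_zero) hf', natDegree_pow] at hn
    rw [map_mul, map_pow]
    refine (S4.sq _).mul (ih (n - 1) (by omega) f' (h * ρ) g hf' (by omega)
      (mul_ne_zero hh hρ.ne_zero) ?_)
    rw [← hfg]; ring
  · push Not at hsf
    refine S4_of_factors _ f hf le_rfl ?_ ?_
    · intro ρ hρm hρ hρf
      obtain ⟨A, hA⟩ := nonreal_factor g hh hfg hρ hρf (hsf ρ hρ)
      refine S4_monic_irreducible hF hI _ ρ hρm hρ rfl ⟨Fintype.card κ, fun i =>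
        A ((Fintype.equivFin κ).symm i), ?_⟩
      rwa [Equiv.sum_comp (Fintype.equivFin κ).symm (fun i => A i ^ 2)]
    · have hgne : ∃ k, g k ≠ 0 := by
        by_contra hcon
        push Not at hcon
        have : ∑ k, g k ^ 2 = 0 := Finset.sum_eq_zero fun k _ => by rw [hcon k]; ring
        rw [this] at hfg
        exact mul_ne_zero (pow_ne_zero _ hh) hf hfg
      obtain ⟨w, hw, -⟩ := leadingCoeff_sum_sq hF g hgne
      have h9 : f.leadingCoeff = ∑ k, (w k / h.leadingCoeff) ^ 2 := by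
        rw [← hfg, leadingCoeff_mul, leadingCoeff_pow] at hw
        have hlh : h.leadingCoeff ≠ 0 := leadingCoeff_ne_zero.mpr hh
        have : ∑ k, (w k / h.leadingCoeff) ^ 2 = (∑ k, w k ^ 2) / h.leadingCoeff ^ 2 := by
          rw [Finset.sum_div]
          exact Finset.sum_congr rfl fun k _ => by rw [div_pow]
        rw [this, ← hw]
        field_simp
      rw [h9]
      exact S4_C hF hI _

/-- Over `F(X)` every sum of squares is a sum of four squares. -/
theorem S4_of_sum_sq (hF : FReal F) (hI : IStar F) {n : ℕ} (x : Fin n → K) :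
    S4 (∑ i, x i ^ 2) := by
  by_cases h0 : ∑ i, x i ^ 2 = 0
  · rw [h0]
    exact ⟨0, 0, 0, 0, by ring⟩
  obtain ⟨b, hb⟩ := IsLocalization.exist_integer_multiples_of_finite (nonZeroDivisors F[X]) x
  choose g hg using hb
  have hb0 : algebraMap F[X] K (b : F[X]) ≠ 0 := by
    intro h
    have := (IsFractionRing.injective F[X] K) (by rw [h, map_zero] :
      algebraMap F[X] K (b : F[X]) = algebraMap F[X] K 0)
    exact nonZeroDivisors.ne_zero b.2 this
  have hg' : ∀ i, algebraMap F[X] K (g i) = algebraMap F[X] K (b : F[X]) * x i := by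
    intro i
    rw [hg i, Algebra.smul_def]
  have hsum : algebraMap F[X] K (∑ i, g i ^ 2)
      = (algebraMap F[X] K (b : F[X])) ^ 2 * ∑ i, x i ^ 2 := by
    rw [map_sum, Finset.mul_sum]
    refine Finset.sum_congr rfl fun i _ => ?_
    rw [map_pow, hg' i]; ring
  have hne : (∑ i, g i ^ 2 : F[X]) ≠ 0 := by
    intro h
    rw [h, map_zero] at hsum
    rcases mul_eq_zero.mp hsum.symm with h1 | h1
    · exact hb0 (pow_eq_zero_iff (by norm_num) |>.mp h1)
    · exact h0 h1
  have hmain := S4_psd (K := K) hF hI _ (∑ i, g i ^ 2) 1 g hne le_rfl one_ne_zero (by ring)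
  have : ∑ i, x i ^ 2 = algebraMap F[X] K (∑ i, g i ^ 2)
      * ((algebraMap F[X] K (b : F[X]))⁻¹) ^ 2 := by
    rw [hsum]
    field_simp
  rw [this]
  exact hmain.mul (S4.sq _)

end

end Pool.Agent.Lib.MP_14789b_nt
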