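import Mathlib
open Polynomial Cardinal
namespace Pool.Agent.Lib.MP_14789b_nt

theorem trExchange {K E : Type*} [Field K] [Field E] [Algebra K E] {m : ℕ} (t z : Fin m → E)
    (ht : AlgebraicIndependent K t)
    (h : ∀ l, t l ∈ IntermediateField.adjoin K (Set.range z)) : AlgebraicIndependent K z := by
  set M := AlgebraicIndependent.matroid K E with hM
  have hT : M.Indep (Set.range t) := ht.to_subtype_range
  have hsub : Set.range t ⊆ M.closure (Set.range z) := by
    rw [hM, AlgebraicIndependent.matroid_closure_eq]
    rintro _ ⟨l, rfl⟩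
    rw [SetLike.mem_coe, Subalgebra.mem_algebraicClosure]
    obtain ⟨x, hx, y, hy, hxy⟩ := IntermediateField.mem_adjoin_iff_div.mp (h l)
    rw [hxy]
    have hx' : IsAlgebraic (Algebra.adjoin K (Set.range z)) x :=
      isAlgebraic_algebraMap (⟨x, hx⟩ : Algebra.adjoin K (Set.range z))
    have hy' : IsAlgebraic (Algebra.adjoin K (Set.range z)) y :=
      isAlgebraic_algebraMap (⟨y, hy⟩ : Algebra.adjoin K (Set.range z))
    rw [div_eq_mul_inv]
    exact hx'.mul hy'.inv
  have hcard : (Set.range t).encard = m := by
    rw [← Set.image_univ, ht.injective.encard_image, Set.encard_univ]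
    simp
  have hz1 : (Set.range z).encard ≤ m := by
    rw [← Set.image_univ]
    refine (Set.encard_image_le _ _).trans ?_
    rw [Set.encard_univ]
    simp
  have h1 : (m : ℕ∞) ≤ M.eRk (Set.range z) := by
    rw [← hcard, ← hT.eRk_eq_encard, ← M.eRk_closure_eq (Set.range z)]
    exact M.eRk_mono hsub
  have h2 : M.eRk (Set.range z) ≤ (Set.range z).encard := M.eRk_le_encard _
  have h3 : M.Indep (Set.range z) := by
    rw [Matroid.indep_iff_eRk_eq_encard_of_finite (Set.finite_range z)]
    exact le_antisymm h2 (hz1.trans h1)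
  have hinj : Function.Injective z := by
    have h4 : (Set.range z).encard = m := le_antisymm hz1 (h1.trans h2)
    have h5 : (Set.range z).ncard = m := by
      rw [Set.ncard_def, h4]; simp
    have h6 : Function.Surjective (Set.rangeFactorization z) := Set.rangeFactorization_surjective
    have h7 : Function.Bijective (Set.rangeFactorization z) := by
      refine h6.bijective_of_nat_card_le ?_
      rw [Nat.card_coe_set_eq, h5]
      simp
    intro a b hab
    exact h7.1 (Subtype.ext hab)
  exact (algebraicIndependent_subtype_range hinj).mp h3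

theorem exists_algInd (Ω E K : Type) [Field Ω] [Uncountable Ω] [Field E] [Algebra Ω E]
    [Algebra.IsAlgebraic Ω E] [Field K] [Countable K] [Algebra K E] (m : ℕ) :
    ∃ t : Fin m → Ω, AlgebraicIndependent K (fun l => algebraMap Ω E (t l)) := by
  set s : Set E := Set.range (algebraMap Ω E) with hs
  have halg : Algebra.IsAlgebraic (Algebra.adjoin K s) E := by
    let φ : Ω →+* Algebra.adjoin K s := RingHom.codRestrict (algebraMap Ω E)
      (Algebra.adjoin K s) (fun x => Algebra.subset_adjoin ⟨x, rfl⟩)
    let _ : Algebra Ω (Algebra.adjoin K s) := φ.toAlgebra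
    have : IsScalarTower Ω (Algebra.adjoin K s) E := IsScalarTower.of_algebraMap_eq (fun _ => rfl)
    exact Algebra.IsAlgebraic.extendScalars (R := Ω) φ.injective
  obtain ⟨t, hts, ht⟩ := exists_isTranscendenceBasis_subset (R := K) s
  have hunc : ¬ Countable t := by
    intro hc
    have h1 : Algebra.IsAlgebraic (Algebra.adjoin K (Set.range ((↑) : t → E))) E :=
      ht.isAlgebraic
    have h2 := Algebra.IsAlgebraic.cardinalMk_le_max
      (Algebra.adjoin K (Set.range ((↑) : t → E))) E
    have h3 := Algebra.cardinalMk_adjoin_le K (Set.range ((↑) : t → E))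
    have h4 : #(Set.range ((↑) : t → E)) ≤ ℵ₀ := by
      rw [Cardinal.mk_le_aleph0_iff]
      exact Set.countable_range _
    have h5 : #K ≤ ℵ₀ := Cardinal.mk_le_aleph0
    have h6 : #E ≤ ℵ₀ := h2.trans (max_le (h3.trans (max_le (max_le h5 h4) le_rfl)) le_rfl)
    have h7 : #Ω ≤ #E := Cardinal.mk_le_of_injective (algebraMap Ω E).injective
    have h8 : Countable Ω := Cardinal.mk_le_aleph0_iff.mp (h7.trans h6)
    exact not_countable h8
  have hinf : Infinite t := by
    by_contra h
    rw [not_infinite_iff_finite] at h
    exact hunc (Finite.to_countable)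
  let e : Fin m ↪ t := (Fin.valEmbedding).trans (Infinite.natEmbedding t)
  have hch : ∀ l : Fin m, ∃ x : Ω, algebraMap Ω E x = (e l : E) := fun l => hts (e l).2
  choose x hx using hch
  refine ⟨x, ?_⟩
  have h9 : (fun l => algebraMap Ω E (x l)) = ((↑) : t → E) ∘ e := funext hx
  rw [h9]
  exact ht.1.comp e e.injective

end Pool.Agent.Lib.MP_14789b_nt
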