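import Mathlib
import Pool.Agent.Lib.MP_14789b_nt.TrDeg
open Polynomial Cardinal
namespace Pool.Agent.Lib.MP_14789b_nt

/-- coefficients of the Lagrange basis -/
noncomputable def lagC {Λ : Type*} [Field Λ] {m : ℕ} (θ : Fin m → Λ) (l : ℕ) (k : Fin m) : Λ :=
  (Lagrange.basis Finset.univ θ k).coeff l

theorem interp {Λ E : Type*} [Field Λ] [Field E] (ι : Λ →+* E) {m : ℕ} (θ : Fin m → Λ)
    (hθ : Function.Injective θ) :
    (∀ f : E[X], f.degree < m → ∀ l, f.coeff l = ∑ k, f.eval (ι (θ k)) * ι (lagC θ l k)) ∧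
    (∀ v : Fin m → E, ∃ f : E[X], f.degree < m ∧ ∀ k, f.eval (ι (θ k)) = v k) := by
  let b : Fin m → Λ[X] := fun k => Lagrange.basis Finset.univ θ k
  have hdegb : ∀ k, (b k).degree < m := by
    intro k
    have h1 := Lagrange.degree_basis (s := Finset.univ) (v := θ) hθ.injOn (Finset.mem_univ k)
    change (Lagrange.basis Finset.univ θ k).degree < m
    rw [h1, Finset.card_univ, Fintype.card_fin]
    have : 0 < m := k.pos
    exact_mod_cast (by omega : m - 1 < m)
  have heval : ∀ (v : Fin m → E) (j : Fin m),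
      (∑ k, C (v k) * (b k).map ι).eval (ι (θ j)) = v j := by
    intro v j
    rw [eval_finsetSum, Finset.sum_eq_single j]
    · rw [eval_mul, eval_C, eval_map_apply]
      change v j * ι ((Lagrange.basis Finset.univ θ j).eval (θ j)) = v j
      rw [Lagrange.eval_basis_self hθ.injOn (Finset.mem_univ j), map_one, mul_one]
    · intro k _ hkj
      rw [eval_mul, eval_C, eval_map_apply]
      change v k * ι ((Lagrange.basis Finset.univ θ k).eval (θ j)) = 0
      rw [Lagrange.eval_basis_of_ne hkj (Finset.mem_univ j), map_zero, mul_zero]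
    · intro h
      exact absurd (Finset.mem_univ j) h
  have hdeg : ∀ v : Fin m → E, (∑ k, C (v k) * (b k).map ι).degree < m := by
    intro v
    refine (degree_sum_le _ _).trans_lt ?_
    rw [Nat.cast_withBot, Finset.sup_lt_iff (WithBot.bot_lt_coe m)]
    intro k _
    rw [← smul_eq_C_mul]
    refine (degree_smul_le _ _).trans_lt ?_
    rw [degree_map]
    exact hdegb k
  refine ⟨?_, fun v => ⟨_, hdeg v, heval v⟩⟩
  intro f hf l
  have h2 : f = ∑ k, C (f.eval (ι (θ k))) * (b k).map ι := by
    refine Polynomial.eq_of_degrees_lt_of_eval_index_eq (s := Finset.univ) (v := fun k => ι (θ k))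
      (fun a _ b _ hab => hθ (ι.injective hab)) ?_ ?_ ?_
    · rw [Finset.card_univ, Fintype.card_fin]; exact hf
    · rw [Finset.card_univ, Fintype.card_fin]; exact hdeg _
    · intro k _
      rw [heval]
  conv_lhs => rw [h2]
  rw [finsetSum_coeff]
  refine Finset.sum_congr rfl fun k _ => ?_
  rw [coeff_C_mul, coeff_map]
  rfl

theorem interp_symm {Λ E : Type*} [Field Λ] [Field E] [Algebra Λ E] {m : ℕ} (θ : Fin m → Λ)
    (hθ : Function.Injective θ) (K : Subfield E) (hK : ∀ x : Λ, algebraMap Λ E x ∈ K)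
    (f : E[X]) (hf : f.degree < m) (hv : ∀ k, f.eval (algebraMap Λ E (θ k)) ∈ K) (l : ℕ) :
    f.coeff l ∈ K := by
  rw [(interp (algebraMap Λ E) θ hθ).1 f hf l]
  exact K.sum_mem fun k _ => K.mul_mem (hv k) (hK _)

/-- A generic solution of `1 + A^2 + B^2 = 0` modulo `p`. -/
theorem exists_generic (W E Λ : Type) [Field W] [CharZero W] [Uncountable W] [Field E]
    [IsAlgClosed E] [Algebra W E] [Algebra.IsAlgebraic W E] [Field Λ] [Countable Λ] [Algebra Λ E]
    {m : ℕ} (p : W[X]) (θ : Fin m → Λ) (hθ : Function.Injective θ)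
    (hp : p.map (algebraMap W E) = ∏ k, (X - C (algebraMap Λ E (θ k))))
    (I : Λ) (hI : I ^ 2 = -1) (A0 B0 : W[X]) (h0 : p ∣ 1 + A0 ^ 2 + B0 ^ 2) :
    ∃ A B : W[X], A.degree < m ∧ B.degree < m ∧ p ∣ 1 + A ^ 2 + B ^ 2 ∧
      AlgebraicIndependent Λ (fun k => (A.map (algebraMap W E)).eval (algebraMap Λ E (θ k))
        + algebraMap Λ E I * (B.map (algebraMap W E)).eval (algebraMap Λ E (θ k))) := by
  have hcharE : CharZero E := charZero_of_injective_algebraMap (algebraMap W E).injective
  set J : E := algebraMap Λ E I with hJ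
  have hJ2 : J ^ 2 = -1 := by rw [hJ, ← map_pow, hI, map_neg, map_one]
  set ev : Fin m → W[X] →+* E := fun k =>
    (evalRingHom (algebraMap Λ E (θ k))).comp (mapRingHom (algebraMap W E)) with hev
  have hev_def : ∀ k (f : W[X]), ev k f = (f.map (algebraMap W E)).eval (algebraMap Λ E (θ k)) :=
    fun k f => rfl
  have hevp : ∀ k, ev k p = 0 := by
    intro k
    rw [hev_def, hp, eval_prod]
    exact Finset.prod_eq_zero (Finset.mem_univ k) (by simp)
  have hpm : p.degree = m := by
    rw [← degree_map_eq_of_injective (algebraMap W E).injective, hp, degree_prod_of_monic]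
    · simp
    · intro k _
      exact monic_X_sub_C _
  have hp0 : p ≠ 0 := by
    rintro rfl
    simp at hpm
  set z0 : Fin m → E := fun k => ev k A0 + J * ev k B0 with hz0
  have hrel0 : ∀ k, (ev k A0) ^ 2 + (ev k B0) ^ 2 = -1 := by
    intro k
    obtain ⟨q, hq⟩ := h0
    have := congrArg (ev k) hq
    rw [map_mul, hevp, zero_mul, map_add, map_add, map_one, map_pow, map_pow] at this
    linear_combination this
  have hz0ne : ∀ k, z0 k ≠ 0 := by
    intro k h
    have h1 : z0 k * (ev k A0 - J * ev k B0) = -1 := by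
      simp only [hz0]
      linear_combination hrel0 k - (ev k B0) ^ 2 * hJ2
    rw [h, zero_mul] at h1
    norm_num at h1
  -- the base field
  let M0 := IntermediateField.adjoin Λ (Set.range z0)
  have hM0 : Countable M0 := by
    rw [← Cardinal.mk_le_aleph0_iff]
    refine (IntermediateField.cardinalMk_adjoin_le Λ (Set.range z0)).trans ?_
    refine max_le (max_le Cardinal.mk_le_aleph0 ?_) le_rfl
    rw [Cardinal.mk_le_aleph0_iff]
    exact (Set.finite_range z0).countable
  obtain ⟨t, ht⟩ := exists_algInd W E M0 m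
  -- the generic polynomial
  set τ : W[X] := ∑ l : Fin m, C (t l) * X ^ (l : ℕ) with hτ
  have hτdeg : τ.degree < m := by
    refine (degree_sum_le _ _).trans_lt ?_
    rw [Nat.cast_withBot, Finset.sup_lt_iff (WithBot.bot_lt_coe m)]
    intro k _
    refine (degree_C_mul_X_pow_le _ _).trans_lt ?_
    exact WithBot.coe_lt_coe.mpr k.2
  have hτcoeff : ∀ l : Fin m, τ.coeff l = t l := by
    intro l
    rw [hτ, finsetSum_coeff, Finset.sum_eq_single l]
    · simp
    · intro k _ hk
      rw [coeff_C_mul, coeff_X_pow, if_neg (fun h => hk (Fin.ext h.symm)), mul_zero]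
    · intro h
      exact absurd (Finset.mem_univ l) h
  set w : Fin m → E := fun k => ev k τ with hw
  have hΛM : ∀ (K : IntermediateField M0 E) (x : Λ), algebraMap Λ E x ∈ K := by
    intro K x
    have : algebraMap Λ E x = algebraMap M0 E (algebraMap Λ M0 x) := rfl
    rw [this]
    exact K.algebraMap_mem _
  have hz0M : ∀ (K : IntermediateField M0 E) k, z0 k ∈ K := by
    intro K k
    have h1 : z0 k ∈ M0 := IntermediateField.subset_adjoin _ _ ⟨k, rfl⟩
    exact K.algebraMap_mem (⟨z0 k, h1⟩ : M0)
  have hwind : AlgebraicIndependent M0 w := by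
    refine trExchange _ w ht fun l => ?_
    have h1 : algebraMap W E (t l) = (τ.map (algebraMap W E)).coeff l := by
      rw [coeff_map, hτcoeff]
    rw [h1]
    refine interp_symm θ hθ (IntermediateField.adjoin M0 (Set.range w)).toSubfield
      (fun x => hΛM _ x) _ ?_ ?_ l
    · rw [degree_map]; exact hτdeg
    · intro k
      exact IntermediateField.subset_adjoin _ _ ⟨k, rfl⟩
  have hw1 : ∀ k, 1 + w k ^ 2 ≠ 0 := by
    intro k h
    refine hwind.transcendental k ⟨1 + X ^ 2, ?_, ?_⟩
    · intro h2
      have := congrArg (fun q => coeff q 2) h2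
      simp [coeff_one] at this
    · simpa using h
  -- coprimality
  have hcop : IsCoprime (1 + τ ^ 2) p := by
    refine (isCoprime_iff_aeval_ne_zero_of_isAlgClosed W E _ _).mpr ?_
    intro a
    by_cases hpa : aeval a p = 0
    · left
      rw [aeval_def, ← eval_map, hp, eval_prod, Finset.prod_eq_zero_iff] at hpa
      obtain ⟨k, -, hk⟩ := hpa
      rw [eval_sub, eval_X, eval_C, sub_eq_zero] at hk
      intro h
      apply hw1 k
      rw [aeval_def, ← eval_map, hk] at h
      have h3 : ev k (1 + τ ^ 2) = 0 := h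
      rw [map_add, map_one, map_pow] at h3
      exact h3
    · right; exact hpa
  obtain ⟨u, v, huv⟩ := hcop
  -- u * (1 + τ ^ 2) + v * p = 1
  set A' : W[X] := (A0 * (1 - τ ^ 2) - 2 * B0 * τ) * u with hA'
  set B' : W[X] := (B0 * (1 - τ ^ 2) + 2 * A0 * τ) * u with hB'
  have hevA : ∀ k, ev k (A' % p) = ev k A' := by
    intro k
    have h1 := EuclideanDomain.div_add_mod A' p
    have h2 := congrArg (ev k) h1
    rw [map_add, map_mul, hevp, zero_mul, zero_add] at h2
    exact h2
  have hevB : ∀ k, ev k (B' % p) = ev k B' := by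
    intro k
    have h1 := EuclideanDomain.div_add_mod B' p
    have h2 := congrArg (ev k) h1
    rw [map_add, map_mul, hevp, zero_mul, zero_add] at h2
    exact h2
  have hdvd' : p ∣ 1 + A' ^ 2 + B' ^ 2 := by
    obtain ⟨q0, hq0⟩ := h0
    refine ⟨2 * v - p * v ^ 2 + q0 * (1 - v * p) ^ 2, ?_⟩
    have e1 : A' ^ 2 + B' ^ 2 = (A0 ^ 2 + B0 ^ 2) * (u * (1 + τ ^ 2)) ^ 2 := by
      simp only [hA', hB']; ring
    have e2 : u * (1 + τ ^ 2) = 1 - v * p := by linear_combination huv
    rw [add_assoc, e1, e2]
    linear_combination (1 - v * p) ^ 2 * hq0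
  have hdvd : p ∣ 1 + (A' % p) ^ 2 + (B' % p) ^ 2 := by
    have h5 : p ∣ (1 + A' ^ 2 + B' ^ 2) - (1 + (A' % p) ^ 2 + (B' % p) ^ 2) := by
      refine ⟨(A' + A' % p) * (A' / p) + (B' + B' % p) * (B' / p), ?_⟩
      have e1 := EuclideanDomain.div_add_mod A' p
      have e2 := EuclideanDomain.div_add_mod B' p
      linear_combination (-(A' + A' % p)) * e1 - (B' + B' % p) * e2
    exact (dvd_sub_right hdvd').mp h5
  refine ⟨A' % p, B' % p, ?_, ?_, hdvd, ?_⟩
  · rw [← hpm]; exact EuclideanDomain.mod_lt _ hp0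
  · rw [← hpm]; exact EuclideanDomain.mod_lt _ hp0
  · set z : Fin m → E := fun k => ev k (A' % p) + J * ev k (B' % p) with hz
    have hrel : ∀ k, z k * (1 - J * w k) = z0 k * (1 + J * w k) := by
      intro k
      have h1 := congrArg (ev k) huv
      rw [map_add, map_mul, map_mul, hevp, mul_zero, add_zero, map_add, map_one, map_pow] at h1
      simp only [hz, hevA, hevB]
      simp only [hz0, hw, hA', hB', map_mul, map_sub, map_add, map_one, map_pow, map_ofNat]
      set a := ev k A0
      set b := ev k B0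
      set s := ev k τ
      set r := ev k u
      have e1 : (a * (1 - s ^ 2) - 2 * b * s) + J * (b * (1 - s ^ 2) + 2 * a * s)
          = (a + J * b) * (1 + J * s) ^ 2 := by
        linear_combination (-(a * s ^ 2 + 2 * b * s + J * b * s ^ 2)) * hJ2
      have e2 : (1 + J * s) ^ 2 * (1 - J * s) = (1 + J * s) * (1 + s ^ 2) := by
        linear_combination (-(1 + J * s) * s ^ 2) * hJ2
      have e3 : ((a * (1 - s ^ 2) - 2 * b * s) * r + J * ((b * (1 - s ^ 2) + 2 * a * s) * r))
          * (1 - J * s) = (a + J * b) * (1 + J * s) * (r * (1 + s ^ 2)) := by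
        linear_combination (r * (1 - J * s)) * e1 + r * (a + J * b) * e2
      rw [e3, h1, mul_one]
    have hne1 : ∀ k, 1 - J * w k ≠ 0 := by
      intro k h
      apply hw1 k
      have : 1 + w k ^ 2 = (1 + J * w k) * (1 - J * w k) := by
        linear_combination (w k ^ 2) * hJ2
      rw [this, h, mul_zero]
    have hne2 : ∀ k, z k + z0 k ≠ 0 := by
      intro k h
      have h1 : (z k + z0 k) * (1 - J * w k) = 2 * z0 k := by
        linear_combination hrel k
      rw [h, zero_mul] at h1
      exact mul_ne_zero two_ne_zero (hz0ne k) h1.symm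
    have hJ0 : J ≠ 0 := by
      intro h
      rw [h] at hJ2
      norm_num at hJ2
    have hwz : ∀ k, w k = (z k - z0 k) / (J * (z k + z0 k)) := by
      intro k
      rw [eq_div_iff (mul_ne_zero hJ0 (hne2 k))]
      linear_combination (-1 : E) * hrel k
    have hzind : AlgebraicIndependent M0 z := by
      refine trExchange w z hwind fun l => ?_
      rw [hwz l]
      set K := IntermediateField.adjoin M0 (Set.range z)
      have h1 : z l ∈ K := IntermediateField.subset_adjoin _ _ ⟨l, rfl⟩
      exact K.div_mem (K.sub_mem h1 (hz0M K l)) (K.mul_mem (hΛM K I) (K.add_mem h1 (hz0M K l)))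
    exact hzind.restrictScalars (algebraMap Λ M0).injective

end Pool.Agent.Lib.MP_14789b_nt
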