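import Mathlib
import Pool.Agent.Lib.MP_14789b_nt.Generic
open Polynomial Cardinal
namespace Pool.Agent.Lib.MP_14789b_nt

/-- the field of rational functions in `m` variables -/
abbrev GenField (Λ : Type) [Field Λ] (m : ℕ) : Type := FractionRing (MvPolynomial (Fin m) Λ)

/-- the `k`-th variable -/
noncomputable abbrev gz {Λ : Type} [Field Λ] {m : ℕ} (k : Fin m) : GenField Λ m :=
  algebraMap (MvPolynomial (Fin m) Λ) (GenField Λ m) (MvPolynomial.X k)

theorem exists_sigma {κ W Λ : Type} [Field κ] [Field W] [CharZero W] [Uncountable W] [Field Λ]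
    [Countable Λ] [Algebra κ Λ] [Algebra.IsAlgebraic κ Λ] (φ : κ →+* W) {m : ℕ} (p : κ[X])
    (θ : Fin m → Λ) (hθ : Function.Injective θ)
    (hp : p.map (algebraMap κ Λ) = ∏ k, (X - C (θ k))) (I : Λ) (hI : I ^ 2 = -1)
    (hloc : ∃ A B : W[X], p.map φ ∣ 1 + A ^ 2 + B ^ 2)
    (Ag Bg : (GenField Λ m)[X]) (hAg : Ag.degree < m) (hBg : Bg.degree < m)
    (hevA : ∀ k, Ag.eval (algebraMap Λ (GenField Λ m) (θ k)) = (gz k - (gz k)⁻¹) / 2)
    (hevB : ∀ k, Bg.eval (algebraMap Λ (GenField Λ m) (θ k))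
      = (gz k + (gz k)⁻¹) / (2 * algebraMap Λ (GenField Λ m) I)) :
    ∃ σ : GenField Λ m →+* AlgebraicClosure W,
      (∀ x : κ, σ (algebraMap Λ (GenField Λ m) (algebraMap κ Λ x))
        = algebraMap W (AlgebraicClosure W) (φ x)) ∧
      (∀ l, σ (Ag.coeff l) ∈ (algebraMap W (AlgebraicClosure W)).range) ∧
      (∀ l, σ (Bg.coeff l) ∈ (algebraMap W (AlgebraicClosure W)).range) := by
  set E := AlgebraicClosure W with hE
  let _ : Algebra κ E := ((algebraMap W E).comp φ).toAlgebra
  let ι : Λ →ₐ[κ] E := IsAlgClosed.lift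
  let _ : Algebra Λ E := ι.toRingHom.toAlgebra
  have hιdef : ∀ x : Λ, algebraMap Λ E x = ι x := fun x => rfl
  have hικ : ∀ x : κ, algebraMap Λ E (algebraMap κ Λ x) = algebraMap W E (φ x) := by
    intro x
    rw [hιdef, ι.commutes]
    rfl
  have hcharE : CharZero E := charZero_of_injective_algebraMap (algebraMap W E).injective
  obtain ⟨A0, B0, h0⟩ := hloc
  have hpE : (p.map φ).map (algebraMap W E) = ∏ k, (X - C (algebraMap Λ E (θ k))) := by
    have h1 := congrArg (Polynomial.map (algebraMap Λ E)) hp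
    rw [Polynomial.map_map, Polynomial.map_prod] at h1
    simp only [Polynomial.map_sub, map_X, map_C] at h1
    rw [← h1, Polynomial.map_map]
    congr 1
    ext x
    exact (hικ x).symm
  obtain ⟨A, B, hA, hB, hAB, hind⟩ := exists_generic W E Λ (p.map φ) θ hθ hpE I hI A0 B0 h0
  set J : E := algebraMap Λ E I with hJ
  have hJ2 : J ^ 2 = -1 := by rw [hJ, ← map_pow, hI, map_neg, map_one]
  have hJ0 : J ≠ 0 := by
    intro h
    rw [h] at hJ2
    norm_num at hJ2
  set a : Fin m → E := fun k => (A.map (algebraMap W E)).eval (algebraMap Λ E (θ k)) with ha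
  set b : Fin m → E := fun k => (B.map (algebraMap W E)).eval (algebraMap Λ E (θ k)) with hb
  have hrel : ∀ k, a k ^ 2 + b k ^ 2 = -1 := by
    intro k
    obtain ⟨q, hq⟩ := hAB
    have h1 := congrArg (fun f => (f.map (algebraMap W E)).eval (algebraMap Λ E (θ k))) hq
    have h2 : ((p.map φ).map (algebraMap W E)).eval (algebraMap Λ E (θ k)) = 0 := by
      rw [hpE, eval_prod]
      exact Finset.prod_eq_zero (Finset.mem_univ k) (by simp)
    simp only [Polynomial.map_add, Polynomial.map_one, Polynomial.map_pow, Polynomial.map_mul,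
      eval_add, eval_one, eval_pow, eval_mul, h2, zero_mul] at h1
    simp only [ha, hb]
    linear_combination h1
  set z : Fin m → E := fun k => a k + J * b k with hz
  have hzinv : ∀ k, (z k)⁻¹ = -(a k - J * b k) := by
    intro k
    refine inv_eq_of_mul_eq_one_right ?_
    simp only [hz]
    linear_combination (-1 : E) * hrel k + (b k) ^ 2 * hJ2
  -- the embedding
  have hinj : Function.Injective (MvPolynomial.aeval z : MvPolynomial (Fin m) Λ →ₐ[Λ] E) := hind
  let σ : GenField Λ m →+* E := IsFractionRing.lift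
    (g := (MvPolynomial.aeval z : MvPolynomial (Fin m) Λ →ₐ[Λ] E).toRingHom) hinj
  have hσ : ∀ x : MvPolynomial (Fin m) Λ, σ (algebraMap _ (GenField Λ m) x)
      = MvPolynomial.aeval z x := fun x => IsFractionRing.lift_algebraMap hinj x
  have hσz : ∀ k, σ (gz k) = z k := by
    intro k
    rw [hσ, MvPolynomial.aeval_X]
  have hσΛ : ∀ x : Λ, σ (algebraMap Λ (GenField Λ m) x) = algebraMap Λ E x := by
    intro x
    have : algebraMap Λ (GenField Λ m) x
        = algebraMap (MvPolynomial (Fin m) Λ) (GenField Λ m) (MvPolynomial.C x) := by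
      rw [IsScalarTower.algebraMap_apply Λ (MvPolynomial (Fin m) Λ) (GenField Λ m)]
      rfl
    rw [this, hσ, MvPolynomial.aeval_C]
  have hcoefA : ∀ l, σ (Ag.coeff l) = algebraMap W E (A.coeff l) := by
    intro l
    have h1 := (interp (algebraMap Λ (GenField Λ m)) θ hθ).1 Ag hAg l
    have h2 := (interp (algebraMap Λ E) θ hθ).1 (A.map (algebraMap W E))
      (by rw [degree_map]; exact hA) l
    rw [coeff_map] at h2
    rw [h1, h2, map_sum]
    refine Finset.sum_congr rfl fun k _ => ?_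
    rw [map_mul, hσΛ, hevA, map_div₀, map_sub, map_inv₀, hσz, hzinv, map_ofNat]
    congr 1
    change (a k + J * b k - -(a k - J * b k)) / 2 = a k
    ring
  have hcoefB : ∀ l, σ (Bg.coeff l) = algebraMap W E (B.coeff l) := by
    intro l
    have h1 := (interp (algebraMap Λ (GenField Λ m)) θ hθ).1 Bg hBg l
    have h2 := (interp (algebraMap Λ E) θ hθ).1 (B.map (algebraMap W E))
      (by rw [degree_map]; exact hB) l
    rw [coeff_map] at h2
    rw [h1, h2, map_sum]
    refine Finset.sum_congr rfl fun k _ => ?_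
    rw [map_mul, hσΛ, hevB, map_div₀, map_add, map_inv₀, hσz, hzinv, map_mul, map_ofNat, hσΛ]
    congr 1
    change (a k + J * b k + -(a k - J * b k)) / (2 * J) = b k
    rw [div_eq_iff (mul_ne_zero two_ne_zero hJ0)]
    ring
  refine ⟨σ, ?_, ?_, ?_⟩
  · intro x
    rw [hσΛ, hικ]
  · intro l
    rw [hcoefA]
    exact ⟨_, rfl⟩
  · intro l
    rw [hcoefB]
    exact ⟨_, rfl⟩

theorem exists_lift_range {M W E : Type} [Field M] [Field W] [Field E] (ψ : W →+* E)
    (σ : M →+* E) (K : Subfield M) (hK : ∀ x ∈ K, σ x ∈ ψ.range) :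
    ∃ φ : K →+* W, ∀ x : K, ψ (φ x) = σ x := by
  have h1 : ∀ x : K, ∃ y : W, ψ y = σ x := fun x => hK x x.2
  choose f hf using h1
  have hinj := ψ.injective
  exact ⟨{ toFun := f
           map_one' := hinj (by rw [hf]; simp)
           map_mul' := fun x y => hinj (by rw [hf, map_mul, hf, hf]; simp)
           map_zero' := hinj (by rw [hf]; simp)
           map_add' := fun x y => hinj (by rw [hf, map_add, hf, hf]; simp) }, hf⟩

theorem conic_param {M : Type*} [Field M] [CharZero M] {J g : M} (hJ : J ^ 2 = -1) (hg : g ≠ 0) :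
    1 + ((g - g⁻¹) / 2) ^ 2 + ((g + g⁻¹) / (2 * J)) ^ 2 = 0 := by
  have h1 : ((g + g⁻¹) / (2 * J)) ^ 2 = -((g + g⁻¹) ^ 2 / 4) := by
    rw [div_pow, mul_pow, hJ]
    ring
  rw [h1]
  have h2 : g * g⁻¹ = 1 := mul_inv_cancel₀ hg
  linear_combination (-1 : M) * h2

/-- Adjoining a solution of `p ∣ 1 + A^2 + B^2` compatibly with two embeddings. -/
theorem step_abs {κ W1 W2 : Type} [Field κ] [CharZero κ] [Countable κ]
    [Field W1] [CharZero W1] [Uncountable W1] [Field W2] [CharZero W2] [Uncountable W2]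
    (φ1 : κ →+* W1) (φ2 : κ →+* W2) (p : κ[X]) (hpm : p.Monic) (hps : p.Separable)
    (hloc1 : ∃ A B : W1[X], p.map φ1 ∣ 1 + A ^ 2 + B ^ 2)
    (hloc2 : ∃ A B : W2[X], p.map φ2 ∣ 1 + A ^ 2 + B ^ 2) :
    ∃ (κ' : Type) (_ : Field κ') (_ : Countable κ') (i : κ →+* κ') (φ1' : κ' →+* W1)
      (φ2' : κ' →+* W2), (∀ x, φ1' (i x) = φ1 x) ∧ (∀ x, φ2' (i x) = φ2 x) ∧
      ∃ A B : κ'[X], p.map i ∣ 1 + A ^ 2 + B ^ 2 := by
  classical
  set Λ := AlgebraicClosure κ with hΛ
  have hΛc : Countable Λ := by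
    rw [← Cardinal.mk_le_aleph0_iff]
    exact (Algebra.IsAlgebraic.cardinalMk_le_max κ Λ).trans
      (max_le Cardinal.mk_le_aleph0 le_rfl)
  have hcharΛ : CharZero Λ := charZero_of_injective_algebraMap (algebraMap κ Λ).injective
  -- the roots
  set P := p.map (algebraMap κ Λ) with hP
  have hPm : P.Monic := hpm.map _
  have hPsplit : P.Splits := IsAlgClosed.splits P
  have hnodup : P.roots.Nodup := Polynomial.nodup_roots hps.map
  set m := P.roots.toFinset.card with hm
  let e := P.roots.toFinset.equivFin.symm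
  let θ : Fin m → Λ := fun k => (e k : Λ)
  have hθ : Function.Injective θ := fun a b hab => e.injective (Subtype.ext hab)
  have hprod : P = ∏ k, (X - C (θ k)) := by
    have h1 : P = (P.roots.map fun a => X - C a).prod := by
      have := hPsplit.eq_prod_roots
      rw [hPm.leadingCoeff, C_1, one_mul] at this
      exact this
    have h2 : (P.roots.map fun a => (X - C a : Λ[X])).prod
        = ∏ a ∈ P.roots.toFinset, (X - C a) := by
      rw [Finset.prod_multiset_map_count]
      refine Finset.prod_congr rfl fun a ha => ?_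
      rw [Multiset.count_eq_one_of_mem hnodup (Multiset.mem_toFinset.mp ha), pow_one]
    rw [h2, ← Finset.prod_coe_sort, ← Equiv.prod_comp e] at h1
    exact h1
  obtain ⟨I, hI⟩ : ∃ I : Λ, I ^ 2 = -1 := IsAlgClosed.exists_pow_nat_eq (-1) (by norm_num)
  set M := GenField Λ m with hM
  have hMchar : CharZero M := charZero_of_injective_algebraMap (algebraMap Λ M).injective
  have hRc : Countable (MvPolynomial (Fin m) Λ) := by
    rw [← Cardinal.mk_le_aleph0_iff]
    refine (MvPolynomial.cardinalMk_le_max).trans ?_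
    exact max_le (max_le Cardinal.mk_le_aleph0 Cardinal.mk_le_aleph0) le_rfl
  have hMc : Countable M := by
    have hsurj : Function.Surjective
        (fun x : MvPolynomial (Fin m) Λ × MvPolynomial (Fin m) Λ =>
          algebraMap _ M x.1 / algebraMap _ M x.2) := by
      intro z
      obtain ⟨x, y, -, hxy⟩ := IsFractionRing.div_surjective (A := MvPolynomial (Fin m) Λ) z
      exact ⟨(x, y), hxy⟩
    exact hsurj.countable
  set J : M := algebraMap Λ M I with hJ
  have hJ2 : J ^ 2 = -1 := by rw [hJ, ← map_pow, hI, map_neg, map_one]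
  have hJ0 : J ≠ 0 := by
    intro h
    rw [h] at hJ2
    norm_num at hJ2
  obtain ⟨Ag, hAg, hevA⟩ := (interp (algebraMap Λ M) θ hθ).2
    (fun k => (gz k - (gz k)⁻¹) / 2)
  obtain ⟨Bg, hBg, hevB⟩ := (interp (algebraMap Λ M) θ hθ).2
    (fun k => (gz k + (gz k)⁻¹) / (2 * J))
  have hgz : ∀ k : Fin m, (gz k : M) ≠ 0 := by
    intro k h
    have := (map_eq_zero_iff _ (IsFractionRing.injective (MvPolynomial (Fin m) Λ) M)).mp h
    exact MvPolynomial.X_ne_zero k this
  -- divisibility over `M`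
  have hdvdM : (P.map (algebraMap Λ M)) ∣ 1 + Ag ^ 2 + Bg ^ 2 := by
    rw [hprod, Polynomial.map_prod]
    refine Finset.prod_dvd_of_coprime ?_ ?_
    · intro a _ b _ hab
      simp only [Polynomial.map_sub, map_X, map_C]
      exact isCoprime_X_sub_C_of_isUnit_sub (by
        rw [isUnit_iff_ne_zero, sub_ne_zero]
        exact fun h => hab (hθ ((algebraMap Λ M).injective h)))
    · intro k _
      simp only [Polynomial.map_sub, map_X, map_C]
      rw [dvd_iff_isRoot, IsRoot.def]
      simp only [eval_add, eval_one, eval_pow, hevA, hevB]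
      exact conic_param hJ2 (hgz k)
  -- the subfield
  let ψ : κ →+* M := (algebraMap Λ M).comp (algebraMap κ Λ)
  let K : Subfield M := Subfield.closure
    (Set.range ψ ∪ (Set.range Ag.coeff ∪ Set.range Bg.coeff))
  have hψK : ∀ x, ψ x ∈ K := fun x => Subfield.subset_closure (Or.inl ⟨x, rfl⟩)
  have hAK : ∀ l, Ag.coeff l ∈ K := fun l =>
    Subfield.subset_closure (Or.inr (Or.inl ⟨l, rfl⟩))
  have hBK : ∀ l, Bg.coeff l ∈ K := fun l =>
    Subfield.subset_closure (Or.inr (Or.inr ⟨l, rfl⟩))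
  obtain ⟨σ1, hσ1, hσ1A, hσ1B⟩ := exists_sigma φ1 p θ hθ hprod I hI hloc1 Ag Bg hAg hBg hevA hevB
  obtain ⟨σ2, hσ2, hσ2A, hσ2B⟩ := exists_sigma φ2 p θ hθ hprod I hI hloc2 Ag Bg hAg hBg hevA hevB
  have hK1 : ∀ x ∈ K, σ1 x ∈ (algebraMap W1 (AlgebraicClosure W1)).range := by
    intro x hx
    have : K ≤ (algebraMap W1 (AlgebraicClosure W1)).fieldRange.comap σ1 := by
      rw [Subfield.closure_le]
      rintro y (⟨a, rfl⟩ | ⟨l, rfl⟩ | ⟨l, rfl⟩)
      · exact ⟨_, (hσ1 a).symm⟩
      · exact hσ1A l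
      · exact hσ1B l
    exact this hx
  have hK2 : ∀ x ∈ K, σ2 x ∈ (algebraMap W2 (AlgebraicClosure W2)).range := by
    intro x hx
    have : K ≤ (algebraMap W2 (AlgebraicClosure W2)).fieldRange.comap σ2 := by
      rw [Subfield.closure_le]
      rintro y (⟨a, rfl⟩ | ⟨l, rfl⟩ | ⟨l, rfl⟩)
      · exact ⟨_, (hσ2 a).symm⟩
      · exact hσ2A l
      · exact hσ2B l
    exact this hx
  obtain ⟨φ1', hφ1'⟩ := exists_lift_range (algebraMap W1 (AlgebraicClosure W1)) σ1 K hK1
  obtain ⟨φ2', hφ2'⟩ := exists_lift_range (algebraMap W2 (AlgebraicClosure W2)) σ2 K hK2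
  let i : κ →+* K := RingHom.codRestrict ψ K hψK
  have hKc : Countable K := Subtype.countable
  have hiψ : K.subtype.comp i = ψ := RingHom.ext fun x => rfl
  obtain ⟨A, hA⟩ : ∃ A : K[X], A.map K.subtype = Ag := by
    have : Ag ∈ lifts K.subtype := by
      rw [lifts_iff_coeff_lifts]
      intro l
      exact ⟨⟨_, hAK l⟩, rfl⟩
    rw [mem_lifts] at this
    exact this
  obtain ⟨B, hB⟩ : ∃ B : K[X], B.map K.subtype = Bg := by
    have : Bg ∈ lifts K.subtype := by
      rw [lifts_iff_coeff_lifts]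
      intro l
      exact ⟨⟨_, hBK l⟩, rfl⟩
    rw [mem_lifts] at this
    exact this
  refine ⟨K, inferInstance, hKc, i, φ1', φ2', ?_, ?_, A, B, ?_⟩
  · intro x
    apply (algebraMap W1 (AlgebraicClosure W1)).injective
    rw [hφ1']
    exact hσ1 x
  · intro x
    apply (algebraMap W2 (AlgebraicClosure W2)).injective
    rw [hφ2']
    exact hσ2 x
  · rw [← map_dvd_map K.subtype K.subtype.injective (hpm.map i)]
    simp only [Polynomial.map_add, Polynomial.map_one, Polynomial.map_pow, hA, hB]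
    rw [Polynomial.map_map, hiψ]
    have : P.map (algebraMap Λ M) = p.map ψ := by
      rw [hP, Polynomial.map_map]
    rw [← this]
    exact hdvdM

end Pool.Agent.Lib.MP_14789b_nt
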