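import Mathlib
import Pool.Agent.Lib.MP_14789b_nt.StepAbs
import Pool.Agent.Lib.MP_14789b_nt.Pyth
open Polynomial Cardinal
namespace Pool.Agent.Lib.MP_14789b_nt

theorem IStar.of_separable {F : Type*} [Field F] (hI : IStar F) :
    ∀ (n : ℕ) (q : F[X]), q.natDegree ≤ n → q.Separable →
      (∃ (m : ℕ) (A : Fin m → F[X]), q ∣ 1 + ∑ i, A i ^ 2) →
      ∃ A B : F[X], q ∣ 1 + A ^ 2 + B ^ 2 := by
  intro n
  induction n with
  | zero =>
    intro q hq hsep _
    have : IsUnit q := by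
      obtain ⟨c, rfl⟩ := natDegree_eq_zero.mp (by omega : q.natDegree = 0)
      rw [isUnit_C, isUnit_iff_ne_zero]
      rintro rfl
      exact hsep.ne_zero C_0
    exact ⟨0, 0, this.dvd⟩
  | succ n ih =>
    intro q hq hsep hnr
    by_cases hu : IsUnit q
    · exact ⟨0, 0, hu.dvd⟩
    obtain ⟨ρ, hρ, q', rfl⟩ := WfDvdMonoid.exists_irreducible_factor hu hsep.ne_zero
    have hq'0 : q' ≠ 0 := right_ne_zero_of_mul hsep.ne_zero
    have hdeg : q'.natDegree ≤ n := by
      rw [natDegree_mul hρ.ne_zero hq'0] at hq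
      have := hρ.natDegree_pos
      omega
    obtain ⟨m, A, hA⟩ := hnr
    obtain ⟨A1, B1, h1⟩ := hI ρ hρ ⟨m, A, (dvd_mul_right _ _).trans hA⟩
    obtain ⟨A2, B2, h2⟩ := ih q' hdeg hsep.of_mul_right ⟨m, A, (dvd_mul_left _ _).trans hA⟩
    obtain ⟨u, v, huv⟩ := hsep.isCoprime
    -- u * ρ + v * q' = 1
    refine ⟨A2 * (u * ρ) + A1 * (v * q'), B2 * (u * ρ) + B1 * (v * q'), ?_⟩
    refine hsep.isCoprime.mul_dvd ?_ ?_
    · obtain ⟨r, hr⟩ := h1
      have e : v * q' = 1 - u * ρ := by linear_combination huv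
      rw [e]
      refine ⟨r + (A2 * u - A1 * u) * (2 * A1 + (A2 * u - A1 * u) * ρ)
        + (B2 * u - B1 * u) * (2 * B1 + (B2 * u - B1 * u) * ρ), ?_⟩
      linear_combination hr
    · obtain ⟨r, hr⟩ := h2
      have e : u * ρ = 1 - v * q' := by linear_combination huv
      rw [e]
      refine ⟨r + (A1 * v - A2 * v) * (2 * A2 + (A1 * v - A2 * v) * q')
        + (B1 * v - B2 * v) * (2 * B2 + (B1 * v - B2 * v) * q'), ?_⟩
      linear_combination hr

section
variable {W1 W2 : Type} [Field W1] [Field W2]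

/-- a countable subfield of the product ring -/
structure Good (S : Subring (W1 × W2)) : Prop where
  countable : (S : Set (W1 × W2)).Countable
  ne : ∀ x ∈ S, x ≠ 0 → x.1 ≠ 0 ∧ x.2 ≠ 0
  inv : ∀ x ∈ S, x⁻¹ ∈ S

theorem good_range {κ : Type} [Field κ] [Countable κ] (φ1 : κ →+* W1) (φ2 : κ →+* W2) :
    Good (φ1.prod φ2).range := by
  refine ⟨Set.countable_range _, ?_, ?_⟩
  · rintro _ ⟨a, rfl⟩ h
    have ha : a ≠ 0 := by
      rintro rfl
      exact h (map_zero _)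
    exact ⟨(map_ne_zero φ1).mpr ha, (map_ne_zero φ2).mpr ha⟩
  · rintro _ ⟨a, rfl⟩
    refine ⟨a⁻¹, ?_⟩
    ext <;> simp

theorem Good.exists_field {S : Subring (W1 × W2)} (hS : Good S) :
    ∃ (κ : Type) (_ : Field κ) (_ : Countable κ) (φ1 : κ →+* W1) (φ2 : κ →+* W2),
      (φ1.prod φ2).range = S := by
  have hF : IsField S := by
    refine ⟨⟨0, 1, ?_⟩, mul_comm, ?_⟩
    · intro h
      have := congrArg (fun x : S => (x : W1 × W2).1) h
      simp at this
    · intro a ha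
      have ha0 : (a : W1 × W2) ≠ 0 := fun h => ha (Subtype.ext h)
      obtain ⟨h1, h2⟩ := hS.ne a a.2 ha0
      refine ⟨⟨(a : W1 × W2)⁻¹, hS.inv a a.2⟩, ?_⟩
      apply Subtype.ext
      ext
      · simp [h1]
      · simp [h2]
  refine ⟨S, hF.toField, hS.countable.to_subtype, (RingHom.fst W1 W2).comp S.subtype,
    (RingHom.snd W1 W2).comp S.subtype, ?_⟩
  ext x
  constructor
  · rintro ⟨a, rfl⟩
    exact a.2
  · intro hx
    exact ⟨⟨x, hx⟩, rfl⟩

theorem Good.iSup {s : ℕ → Subring (W1 × W2)} (hmono : Monotone s) (h : ∀ n, Good (s n)) :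
    Good (⨆ n, s n) := by
  have hdir : Directed (· ≤ ·) s := hmono.directed_le
  refine ⟨?_, ?_, ?_⟩
  · rw [Subring.coe_iSup_of_directed hdir]
    exact Set.countable_iUnion fun n => (h n).countable
  · intro x hx
    obtain ⟨n, hn⟩ := (Subring.mem_iSup_of_directed hdir).mp hx
    exact (h n).ne x hn
  · intro x hx
    obtain ⟨n, hn⟩ := (Subring.mem_iSup_of_directed hdir).mp hx
    exact (Subring.mem_iSup_of_directed hdir).mpr ⟨n, (h n).inv x hn⟩

/-- `1 + A^2 + B^2` is a multiple of `p` over `S`. -/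
def Sol (S : Subring (W1 × W2)) (p : (W1 × W2)[X]) : Prop :=
  ∃ A B Q : (W1 × W2)[X], (∀ n, A.coeff n ∈ S) ∧ (∀ n, B.coeff n ∈ S) ∧ (∀ n, Q.coeff n ∈ S) ∧
    1 + A ^ 2 + B ^ 2 = p * Q

theorem Sol.mono {S S' : Subring (W1 × W2)} (h : S ≤ S') {p : (W1 × W2)[X]} (hs : Sol S p) :
    Sol S' p := by
  obtain ⟨A, B, Q, hA, hB, hQ, e⟩ := hs
  exact ⟨A, B, Q, fun n => h (hA n), fun n => h (hB n), fun n => h (hQ n), e⟩

/-- local conditions -/
def Loc (p : (W1 × W2)[X]) : Prop :=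
  p.Monic ∧ (p.map (RingHom.fst W1 W2)).Separable ∧
    (∃ A B : W1[X], p.map (RingHom.fst W1 W2) ∣ 1 + A ^ 2 + B ^ 2) ∧
    (∃ A B : W2[X], p.map (RingHom.snd W1 W2) ∣ 1 + A ^ 2 + B ^ 2)

theorem exists_lift_poly {R T : Type*} [CommRing R] [CommRing T] (f : R →+* T) (S : Subring T)
    (hS : f.range = S) (p : T[X]) (hp : ∀ n, p.coeff n ∈ S) : ∃ q : R[X], q.map f = p := by
  have : p ∈ lifts f := by
    rw [lifts_iff_coeff_lifts]
    intro n
    have := hp n
    rw [← hS] at this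
    exact this
  rw [mem_lifts] at this
  exact this

variable [CharZero W1] [CharZero W2] [Uncountable W1] [Uncountable W2]

theorem step {S : Subring (W1 × W2)} (hS : Good S) (p : (W1 × W2)[X]) (hp : ∀ n, p.coeff n ∈ S)
    (hloc : Loc p) : ∃ S' : Subring (W1 × W2), S ≤ S' ∧ Good S' ∧ Sol S' p := by
  obtain ⟨κ, _, _, φ1, φ2, hφ⟩ := hS.exists_field
  have hchar : CharZero κ := RingHom.charZero φ1
  obtain ⟨q, hq⟩ := exists_lift_poly (φ1.prod φ2) S hφ p hp
  obtain ⟨hm, hsep, hl1, hl2⟩ := hloc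
  have e1 : p.map (RingHom.fst W1 W2) = q.map φ1 := by
    rw [← hq, Polynomial.map_map]; rfl
  have e2 : p.map (RingHom.snd W1 W2) = q.map φ2 := by
    rw [← hq, Polynomial.map_map]; rfl
  rw [e1] at hsep hl1
  rw [e2] at hl2
  have hinj : Function.Injective (φ1.prod φ2) := (φ1.prod φ2).injective
  have hqm : q.Monic := by
    rw [← hq] at hm
    exact monic_of_injective hinj hm
  obtain ⟨κ', _, _, i, φ1', φ2', h1, h2, A, B, hAB⟩ :=
    step_abs φ1 φ2 q hqm ((separable_map φ1).mp hsep) hl1 hl2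
  refine ⟨(φ1'.prod φ2').range, ?_, good_range _ _, ?_⟩
  · rw [← hφ]
    rintro _ ⟨a, rfl⟩
    refine ⟨i a, ?_⟩
    ext
    · exact h1 a
    · exact h2 a
  · obtain ⟨Q, hQ⟩ := hAB
    refine ⟨A.map (φ1'.prod φ2'), B.map (φ1'.prod φ2'), Q.map (φ1'.prod φ2'), ?_, ?_, ?_, ?_⟩
    · intro n; rw [coeff_map]; exact ⟨_, rfl⟩
    · intro n; rw [coeff_map]; exact ⟨_, rfl⟩
    · intro n; rw [coeff_map]; exact ⟨_, rfl⟩
    · have h3 := congrArg (Polynomial.map (φ1'.prod φ2')) hQ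
      rw [Polynomial.map_mul, Polynomial.map_map] at h3
      have h4 : (φ1'.prod φ2').comp i = φ1.prod φ2 := by
        ext x
        · exact h1 x
        · exact h2 x
      rw [h4, hq] at h3
      rw [← h3]
      simp

theorem step_all {S : Subring (W1 × W2)} (hS : Good S) :
    ∃ S' : Subring (W1 × W2), S ≤ S' ∧ Good S' ∧
      ∀ p : (W1 × W2)[X], (∀ n, p.coeff n ∈ S) → Loc p → Sol S' p := by
  have hT : {p : (W1 × W2)[X] | ∀ n, p.coeff n ∈ S}.Countable := by
    have hSc : Countable S := hS.countable.to_subtype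
    have hSX : Countable (S[X]) := by
      rw [← Cardinal.mk_le_aleph0_iff]
      exact (Polynomial.cardinalMk_le_max).trans (max_le Cardinal.mk_le_aleph0 le_rfl)
    refine (Set.countable_range (Polynomial.map S.subtype)).mono ?_
    intro p hp
    exact exists_lift_poly S.subtype S (by simp) p hp
  obtain ⟨f, hf⟩ := hT.exists_eq_range ⟨0, fun n => by simp⟩
  have hstep : ∀ (n : ℕ) (S' : {S' : Subring (W1 × W2) // S ≤ S' ∧ Good S'}),
      ∃ S'' : {S' : Subring (W1 × W2) // S ≤ S' ∧ Good S'},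
        S'.1 ≤ S''.1 ∧ (Loc (f n) → Sol S''.1 (f n)) := by
    rintro n ⟨S', hSS', hS'⟩
    by_cases hl : Loc (f n)
    · have hfn : ∀ k, (f n).coeff k ∈ S' := by
        have : f n ∈ {p : (W1 × W2)[X] | ∀ n, p.coeff n ∈ S} := by
          rw [hf]; exact ⟨n, rfl⟩
        exact fun k => hSS' (this k)
      obtain ⟨S'', h1, h2, h3⟩ := step hS' (f n) hfn hl
      exact ⟨⟨S'', hSS'.trans h1, h2⟩, h1, fun _ => h3⟩
    · exact ⟨⟨S', hSS', hS'⟩, le_rfl, fun h => absurd h hl⟩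
  choose g hg1 hg2 using hstep
  let s : ℕ → {S' : Subring (W1 × W2) // S ≤ S' ∧ Good S'} :=
    fun n => Nat.rec ⟨S, le_rfl, hS⟩ (fun n prev => g n prev) n
  have hs : ∀ n, s (n + 1) = g n (s n) := fun n => rfl
  have hmono : Monotone (fun n => (s n).1) := by
    refine monotone_nat_of_le_succ fun n => ?_
    rw [hs]
    exact hg1 n (s n)
  refine ⟨⨆ n, (s n).1, ?_, Good.iSup hmono fun n => (s n).2.2, ?_⟩
  · exact le_iSup (fun n => (s n).1) 0
  · intro p hp hl
    have : p ∈ {p : (W1 × W2)[X] | ∀ n, p.coeff n ∈ S} := hp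
    rw [hf] at this
    obtain ⟨n, rfl⟩ := this
    have h1 := hg2 n (s n) hl
    rw [← hs] at h1
    exact h1.mono (le_iSup (fun n => (s n).1) (n + 1))

theorem exists_closed {S : Subring (W1 × W2)} (hS : Good S) :
    ∃ S' : Subring (W1 × W2), S ≤ S' ∧ Good S' ∧
      ∀ p : (W1 × W2)[X], (∀ n, p.coeff n ∈ S') → Loc p → Sol S' p := by
  have hstep : ∀ (S' : {S' : Subring (W1 × W2) // Good S'}),
      ∃ S'' : {S' : Subring (W1 × W2) // Good S'}, S'.1 ≤ S''.1 ∧
        ∀ p : (W1 × W2)[X], (∀ n, p.coeff n ∈ S'.1) → Loc p → Sol S''.1 p := by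
    rintro ⟨S', hS'⟩
    obtain ⟨S'', h1, h2, h3⟩ := step_all hS'
    exact ⟨⟨S'', h2⟩, h1, h3⟩
  choose g hg1 hg2 using hstep
  let s : ℕ → {S' : Subring (W1 × W2) // Good S'} :=
    fun n => Nat.rec ⟨S, hS⟩ (fun _ prev => g prev) n
  have hs : ∀ n, s (n + 1) = g (s n) := fun n => rfl
  have hmono : Monotone (fun n => (s n).1) := by
    refine monotone_nat_of_le_succ fun n => ?_
    rw [hs]
    exact hg1 (s n)
  refine ⟨⨆ n, (s n).1, le_iSup (fun n => (s n).1) 0, Good.iSup hmono fun n => (s n).2, ?_⟩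
  intro p hp hl
  have hdir : Directed (· ≤ ·) (fun n => (s n).1) := hmono.directed_le
  have h1 : ∀ k, ∃ n, p.coeff k ∈ (s n).1 := fun k =>
    (Subring.mem_iSup_of_directed hdir).mp (hp k)
  choose N hN using h1
  set M := (Finset.range (p.natDegree + 1)).sup N with hM
  have h2 : ∀ k, p.coeff k ∈ (s M).1 := by
    intro k
    by_cases hk : k ≤ p.natDegree
    · have : N k ≤ M := Finset.le_sup (f := N) (Finset.mem_range.mpr (by omega))
      exact hmono this (hN k)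
    · rw [coeff_eq_zero_of_natDegree_lt (by omega)]
      exact zero_mem _
  have h3 := hg2 (s M) p h2 hl
  rw [← hs] at h3
  exact h3.mono (le_iSup (fun n => (s n).1) (M + 1))

end

/-- Existence of countable fields with `IStar` inside two big fields. -/
theorem exists_IStar_field (W1 W2 : Type) [Field W1] [Field W2] [CharZero W1] [CharZero W2]
    [Uncountable W1] [Uncountable W2] (hI1 : IStar W1) (hI2 : IStar W2)
    (κ0 : Type) [Field κ0] [Countable κ0] (ψ1 : κ0 →+* W1) (ψ2 : κ0 →+* W2) :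
    ∃ (κ : Type) (_ : Field κ) (_ : Countable κ) (i : κ0 →+* κ) (φ1 : κ →+* W1)
      (φ2 : κ →+* W2), (∀ x, φ1 (i x) = ψ1 x) ∧ (∀ x, φ2 (i x) = ψ2 x) ∧ IStar κ := by
  obtain ⟨S, hle, hS, hclosed⟩ := exists_closed (good_range ψ1 ψ2)
  obtain ⟨κ, hκ, hκc, φ1, φ2, hφ⟩ := hS.exists_field
  have hchar : CharZero κ := RingHom.charZero φ1
  have hinj : Function.Injective (φ1.prod φ2) := (φ1.prod φ2).injective
  have h1 : ∀ x : κ0, ∃ y : κ, (φ1.prod φ2) y = (ψ1.prod ψ2) x := by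
    intro x
    have : (ψ1.prod ψ2) x ∈ S := hle ⟨x, rfl⟩
    rw [← hφ] at this
    exact this
  choose i hi using h1
  let i' : κ0 →+* κ :=
    { toFun := i
      map_one' := hinj (by rw [hi]; simp)
      map_mul' := fun x y => hinj (by rw [hi, map_mul, map_mul, hi, hi])
      map_zero' := hinj (by rw [hi]; simp)
      map_add' := fun x y => hinj (by rw [hi, map_add, map_add, hi, hi]) }
  refine ⟨κ, hκ, hκc, i', φ1, φ2, fun x => congrArg Prod.fst (hi x),
    fun x => congrArg Prod.snd (hi x), ?_⟩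
  intro p hp
  rintro ⟨n, A, hA⟩
  set q := p * C p.leadingCoeff⁻¹ with hq
  have hqm : q.Monic := monic_mul_leadingCoeff_inv hp.ne_zero
  have hlc : p.leadingCoeff ≠ 0 := leadingCoeff_ne_zero.mpr hp.ne_zero
  have hqp : q ∣ p := ⟨C p.leadingCoeff, by
    rw [hq, mul_assoc, ← C_mul, inv_mul_cancel₀ hlc, C_1, mul_one]⟩
  have hpq : p ∣ q := dvd_mul_right _ _
  have hqsep : q.Separable := (hp.separable).of_dvd hqp
  have e1 : (q.map (φ1.prod φ2)).map (RingHom.fst W1 W2) = q.map φ1 := by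
    rw [Polynomial.map_map]; rfl
  have e2 : (q.map (φ1.prod φ2)).map (RingHom.snd W1 W2) = q.map φ2 := by
    rw [Polynomial.map_map]; rfl
  have hqA : q ∣ 1 + ∑ i, A i ^ 2 := hqp.trans hA
  have hloc : Loc (q.map (φ1.prod φ2)) := by
    refine ⟨hqm.map _, ?_, ?_, ?_⟩
    · rw [e1]; exact hqsep.map
    · rw [e1]
      refine hI1.of_separable _ _ le_rfl hqsep.map ⟨n, fun i => (A i).map φ1, ?_⟩
      have := Polynomial.map_dvd φ1 hqA
      simpa [Polynomial.map_sum] using this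
    · rw [e2]
      refine hI2.of_separable _ _ le_rfl hqsep.map ⟨n, fun i => (A i).map φ2, ?_⟩
      have := Polynomial.map_dvd φ2 hqA
      simpa [Polynomial.map_sum] using this
  have hcoef : ∀ n, (q.map (φ1.prod φ2)).coeff n ∈ S := by
    intro n
    rw [coeff_map, ← hφ]
    exact ⟨_, rfl⟩
  obtain ⟨A', B', Q', hA', hB', hQ', e⟩ := hclosed _ hcoef hloc
  obtain ⟨a, rfl⟩ := exists_lift_poly (φ1.prod φ2) S hφ A' hA'
  obtain ⟨b, rfl⟩ := exists_lift_poly (φ1.prod φ2) S hφ B' hB'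
  obtain ⟨r, rfl⟩ := exists_lift_poly (φ1.prod φ2) S hφ Q' hQ'
  refine ⟨a, b, hpq.trans ⟨r, ?_⟩⟩
  apply Polynomial.map_injective _ hinj
  simpa using e

end Pool.Agent.Lib.MP_14789b_nt
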