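import Mathlib
import Pool.Agent.Lib.MP_14789b_nt.Pyth

open Polynomial

namespace Pool.Agent.Lib.MP_14789b_nt

/-- `IStar` for algebraic extensions. -/
theorem IStar.ext {F : Type*} [Field F] [CharZero F] (hI : IStar F) {L : Type*} [Field L]
    [Algebra F L] [Algebra.IsAlgebraic F L] {n : ℕ} (f : Fin n → L)
    (hf : 1 + ∑ i, f i ^ 2 = 0) : ∃ a b : L, 1 + a ^ 2 + b ^ 2 = 0 := by
  set E := IntermediateField.adjoin F (Set.range f) with hE
  have hfin : FiniteDimensional F E :=
    IntermediateField.finiteDimensional_adjoin fun x _ => Algebra.IsIntegral.isIntegral x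
  have hmem : ∀ i, f i ∈ E := fun i => IntermediateField.subset_adjoin _ _ ⟨i, rfl⟩
  let pb := Field.powerBasisOfFiniteOfSeparable F E
  have hA : ∀ i, ∃ A : F[X], (⟨f i, hmem i⟩ : E) = aeval pb.gen A :=
    fun i => pb.exists_eq_aeval' _
  choose A hA using hA
  have hint : IsIntegral F pb.gen := Algebra.IsIntegral.isIntegral _
  obtain ⟨B, D, hBD⟩ := hI (minpoly F pb.gen) (minpoly.irreducible hint) ⟨n, A, by
    apply minpoly.dvd
    rw [map_add, map_one, map_sum]
    have : ∀ i, aeval pb.gen (A i ^ 2) = (⟨f i, hmem i⟩ : E) ^ 2 := fun i => by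
      rw [map_pow, hA i]
    simp only [this]
    apply Subtype.ext
    simpa using hf⟩
  obtain ⟨q, hq⟩ := hBD
  have h1 := congrArg (aeval pb.gen) hq
  rw [map_mul, minpoly.aeval, zero_mul] at h1
  simp only [map_add, map_one, map_pow] at h1
  refine ⟨(aeval pb.gen B : E), (aeval pb.gen D : E), ?_⟩
  have := congrArg (Subtype.val) h1
  simpa using this

/-- square roots near one -/
theorem exists_sq_of_norm_lt {L : Type*} [NormedField L] [IsUltrametricDist L] [CompleteSpace L]
    (h2 : ‖(2 : L)‖ = 1) {x : L} (hx : ‖x‖ < 1) : ∃ y : L, y ^ 2 = 1 + x := by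
  have h20 : (2 : L) ≠ 0 := by
    intro h
    rw [h, norm_zero] at h2
    exact zero_ne_one h2
  let T : L → L := fun y => (x - y ^ 2) / 2
  have hmaps : Set.MapsTo T (Metric.closedBall 0 ‖x‖) (Metric.closedBall 0 ‖x‖) := by
    intro y hy
    rw [mem_closedBall_zero_iff] at hy ⊢
    have h1 : ‖T y‖ = ‖x - y ^ 2‖ := by
      simp only [T, norm_div, h2, div_one]
    rw [h1]
    rw [sub_eq_add_neg]
    refine (IsUltrametricDist.norm_add_le_max _ _).trans (max_le le_rfl ?_)
    rw [norm_neg, norm_pow]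
    have h3 : 0 ≤ ‖y‖ := norm_nonneg y
    nlinarith
  have hcontr : ContractingWith ‖x‖₊ (hmaps.restrict T _ _) := by
    refine ⟨by exact_mod_cast hx, LipschitzWith.of_dist_le_mul ?_⟩
    rintro ⟨y, hy⟩ ⟨z, hz⟩
    rw [mem_closedBall_zero_iff] at hy hz
    rw [Subtype.dist_eq, Subtype.dist_eq]
    simp only [Set.MapsTo.val_restrict_apply]
    rw [dist_eq_norm, dist_eq_norm]
    have h1 : T y - T z = -((y - z) * (y + z)) / 2 := by
      simp only [T]; ring
    rw [h1, norm_div, h2, div_one, norm_neg, norm_mul, mul_comm]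
    refine mul_le_mul_of_nonneg_right ?_ (norm_nonneg _)
    exact (IsUltrametricDist.norm_add_le_max _ _).trans (max_le hy hz)
  obtain ⟨y, -, hy, -⟩ := hcontr.exists_fixedPoint' (s := Metric.closedBall (0 : L) ‖x‖)
    (Metric.isClosed_closedBall.isComplete) hmaps (x := 0) (by simp) (edist_ne_top _ _)
  refine ⟨1 + y, ?_⟩
  have h1 : (x - y ^ 2) / 2 = y := hy
  field_simp at h1
  linear_combination (-1 : L) * h1

theorem exists_two_sq_of_norm_lt {L : Type*} [NormedField L] [IsUltrametricDist L]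
    [CompleteSpace L] (h2 : ‖(2 : L)‖ = 1) {a b : L} (ha : ‖a‖ ≤ 1) (hb : ‖b‖ ≤ 1)
    (hab : ‖1 + a ^ 2 + b ^ 2‖ < 1) : ∃ a b : L, 1 + a ^ 2 + b ^ 2 = 0 := by
  -- auxiliary: if `‖a‖ = 1`
  have aux : ∀ a b : L, ‖a‖ = 1 → ‖1 + a ^ 2 + b ^ 2‖ < 1 → ∃ a b : L, 1 + a ^ 2 + b ^ 2 = 0 := by
    intro a b ha1 hab
    have ha0 : a ≠ 0 := by
      intro h
      rw [h, norm_zero] at ha1
      exact zero_ne_one ha1
    obtain ⟨y, hy⟩ := exists_sq_of_norm_lt h2 (x := -(1 + a ^ 2 + b ^ 2) / a ^ 2) (by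
      rw [norm_div, norm_neg, norm_pow, ha1, one_pow, div_one]
      exact hab)
    refine ⟨a * y, b, ?_⟩
    rw [mul_pow, hy]
    field_simp
    ring
  rcases ha.lt_or_eq with ha1 | ha1
  · rcases hb.lt_or_eq with hb1 | hb1
    · exfalso
      have h1 : ‖(1 : L)‖ < 1 := by
        have : (1 : L) = (1 + a ^ 2 + b ^ 2) + (-a ^ 2 + -b ^ 2) := by ring
        rw [this]
        refine (IsUltrametricDist.norm_add_le_max _ _).trans_lt (max_lt hab ?_)
        refine (IsUltrametricDist.norm_add_le_max _ _).trans_lt (max_lt ?_ ?_)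
        · rw [norm_neg, norm_pow]
          exact pow_lt_one₀ (norm_nonneg _) ha1 (by norm_num)
        · rw [norm_neg, norm_pow]
          exact pow_lt_one₀ (norm_nonneg _) hb1 (by norm_num)
      rw [norm_one] at h1
      exact lt_irrefl _ h1
    · exact aux b a hb1 (by rwa [add_right_comm] at hab)
  · exact aux a b ha1 hab

/-- a relation `-1 = sum of squares` can be made integral -/
theorem exists_integral_rel {L : Type*} [NormedField L] {n : ℕ} (f : Fin n → L)
    (hf : 1 + ∑ i, f i ^ 2 = 0) :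
    ∃ g : Fin (n + 1) → L, (∀ i, ‖g i‖ ≤ 1) ∧ 1 + ∑ i, g i ^ 2 = 0 := by
  let F : Fin (n + 1) → L := Fin.cons 1 f
  obtain ⟨j, -, hj⟩ := Finset.exists_max_image Finset.univ (fun i => ‖F i‖)
    ⟨0, Finset.mem_univ _⟩
  have hF : ∑ i, F i ^ 2 = 0 := by
    rw [Fin.sum_univ_succ]
    simpa [F] using hf
  have hj1 : 1 ≤ ‖F j‖ := by
    have := hj 0 (Finset.mem_univ _)
    simpa [F] using this
  have hj0 : F j ≠ 0 := by
    intro h
    rw [h, norm_zero] at hj1
    exact absurd hj1 (by norm_num)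
  refine ⟨fun i => if i = j then 0 else F i / F j, fun i => ?_, ?_⟩
  · beta_reduce
    split_ifs
    · simp
    · rw [norm_div]
      exact div_le_one_of_le₀ (hj i (Finset.mem_univ _)) (norm_nonneg _)
  · beta_reduce
    have h1 : ∑ i, (F i / F j) ^ 2 = 0 := by
      have : ∀ i, (F i / F j) ^ 2 = F i ^ 2 / F j ^ 2 := fun i => by rw [div_pow]
      simp only [this]
      rw [← Finset.sum_div, hF, zero_div]
    rw [← Finset.add_sum_erase Finset.univ _ (Finset.mem_univ j)] at h1
    rw [← Finset.add_sum_erase Finset.univ _ (Finset.mem_univ j)]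
    have h2 : ∑ i ∈ Finset.univ.erase j, (if i = j then 0 else F i / F j) ^ 2
        = ∑ i ∈ Finset.univ.erase j, (F i / F j) ^ 2 :=
      Finset.sum_congr rfl fun i hi => by rw [if_neg (Finset.ne_of_mem_erase hi)]
    rw [h2]
    rw [div_self hj0] at h1
    rw [if_pos rfl]
    linear_combination h1

end Pool.Agent.Lib.MP_14789b_nt
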