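import Mathlib
import Pool.Agent.Lib.MP_14789b_nt.Hensel

open Polynomial

namespace Pool.Agent.Lib.MP_14789b_nt

section
variable {κ Ω L : Type*} [Field κ] [CharZero κ] [NontriviallyNormedField Ω] [IsUltrametricDist Ω]
  [CompleteSpace Ω] [Field L] [Algebra Ω L] [FiniteDimensional Ω L]

theorem level_of_complete (ι : κ →+* Ω) (hι : ∀ a, a ≠ 0 → ‖ι a‖ = 1)
    (hres : ∀ x : Ω, ‖x‖ ≤ 1 → ∃ a, ‖x - ι a‖ < 1) (hI : IStar κ)
    {n : ℕ} (f : Fin n → L) (hf : 1 + ∑ i, f i ^ 2 = 0) :
    ∃ a b : L, 1 + a ^ 2 + b ^ 2 = 0 := by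
  let _ : NormedField L := spectralNorm.normedField Ω L
  have hnorm : ∀ x : L, ‖x‖ = spectralNorm Ω L x := fun x => rfl
  have hna : IsNonarchimedean (norm : L → ℝ) := isNonarchimedean_spectralNorm
  have hult : IsUltrametricDist L := by
    exact IsUltrametricDist.isUltrametricDist_of_isNonarchimedean_norm hna
  have hcomp : CompleteSpace L := spectralNorm.completeSpace Ω L
  have hext : ∀ x : Ω, ‖algebraMap Ω L x‖ = ‖x‖ := fun x => spectralNorm_extends x
  have h2 : ‖(2 : L)‖ = 1 := by
    have h21 := hι 2 two_ne_zero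
    have : (2 : L) = algebraMap Ω L (ι 2) := by rw [map_ofNat, map_ofNat]
    rw [this, hext, h21]
  obtain ⟨g, hg1, hg2⟩ := exists_integral_rel f hf
  let v : Valuation L NNReal := NormedField.valuation
  let O := v.valuationSubring
  have hmemO : ∀ x : L, x ∈ O ↔ ‖x‖ ≤ 1 := by
    intro x
    change v x ≤ 1 ↔ _
    rw [NormedField.valuation_apply]
    exact_mod_cast Iff.rfl
  have hιO : ∀ a : κ, algebraMap Ω L (ι a) ∈ O := by
    intro a
    rw [hmemO, hext]
    by_cases ha : a = 0
    · rw [ha, map_zero, norm_zero]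
      exact zero_le_one
    · exact (hι a ha).le
  let φ : κ →+* O := RingHom.codRestrict ((algebraMap Ω L).comp ι) O hιO
  let R := IsLocalRing.ResidueField O
  let ψ : κ →+* R := (IsLocalRing.residue O).comp φ
  let _ : Algebra κ R := ψ.toAlgebra
  have hres0 : ∀ y : O, IsLocalRing.residue O y = 0 ↔ ‖(y : L)‖ < 1 := by
    intro y
    rw [IsLocalRing.residue_eq_zero_iff, Valuation.mem_maximalIdeal_iff]
    change v (y : L) < 1 ↔ _
    rw [NormedField.valuation_apply]
    exact_mod_cast Iff.rfl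
  have halg : Algebra.IsAlgebraic κ R := by
    refine ⟨fun z => ?_⟩
    obtain ⟨x, rfl⟩ := IsLocalRing.residue_surjective z
    have hx1 : ‖(x : L)‖ ≤ 1 := (hmemO _).mp x.2
    have hint : IsIntegral Ω (x : L) := Algebra.IsIntegral.isIntegral _
    set m := minpoly Ω (x : L) with hm
    have hmon : m.Monic := minpoly.monic hint
    have hcoeff : ∀ i, ‖m.coeff i‖ ≤ 1 := by
      rw [← spectralValue_le_one_iff hmon]
      exact hx1
    have := fun i => hres _ (hcoeff i)
    choose a ha using this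
    -- the polynomial
    refine ⟨X ^ m.natDegree + ∑ i ∈ Finset.range m.natDegree, C (a i) * X ^ i, ?_, ?_⟩
    · have : (X ^ m.natDegree + ∑ i ∈ Finset.range m.natDegree, C (a i) * X ^ i : κ[X]).Monic := by
        refine monic_X_pow_add ?_
        refine (degree_sum_le _ _).trans_lt ?_
        rw [Finset.sup_lt_iff (by exact WithBot.bot_lt_coe _)]
        intro i hi
        refine (degree_C_mul_X_pow_le _ _).trans_lt ?_
        exact_mod_cast Finset.mem_range.mp hi
      exact this.ne_zero
    · have h3 : aeval (IsLocalRing.residue O x)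
          (X ^ m.natDegree + ∑ i ∈ Finset.range m.natDegree, C (a i) * X ^ i : κ[X])
          = IsLocalRing.residue O (x ^ m.natDegree
            + ∑ i ∈ Finset.range m.natDegree, φ (a i) * x ^ i) := by
        simp only [map_add, map_sum, map_mul, map_pow, aeval_X, aeval_C]
        rfl
      rw [h3, hres0]
      have h4 : ((x ^ m.natDegree + ∑ i ∈ Finset.range m.natDegree, φ (a i) * x ^ i : O) : L)
          = -∑ i ∈ Finset.range m.natDegree, algebraMap Ω L (m.coeff i - ι (a i)) * (x : L) ^ i := by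
        have h5 : aeval (x : L) m = 0 := minpoly.aeval _ _
        rw [aeval_eq_sum_range, Finset.sum_range_succ, hmon.coeff_natDegree, one_smul] at h5
        have h6 : ((x ^ m.natDegree + ∑ i ∈ Finset.range m.natDegree, φ (a i) * x ^ i : O) : L)
            = (x : L) ^ m.natDegree
              + ∑ i ∈ Finset.range m.natDegree, algebraMap Ω L (ι (a i)) * (x : L) ^ i := by
          push_cast
          rfl
        rw [h6]
        have h7 : ∑ i ∈ Finset.range m.natDegree, algebraMap Ω L (m.coeff i - ι (a i)) * (x : L) ^ i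
            = ∑ i ∈ Finset.range m.natDegree, m.coeff i • (x : L) ^ i
              - ∑ i ∈ Finset.range m.natDegree, algebraMap Ω L (ι (a i)) * (x : L) ^ i := by
          rw [← Finset.sum_sub_distrib]
          refine Finset.sum_congr rfl fun i _ => ?_
          rw [map_sub, Algebra.smul_def]
          ring
        rw [h7]
        linear_combination h5
      rw [h4, norm_neg]
      by_cases hdeg : (Finset.range m.natDegree).Nonempty
      · refine lt_of_le_of_lt (IsNonarchimedean.apply_sum_le_sup hna hdeg) ?_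
        rw [Finset.sup'_lt_iff]
        intro i _
        rw [norm_mul, hext, norm_pow]
        refine (mul_le_of_le_one_right (norm_nonneg _) (pow_le_one₀ (norm_nonneg _) hx1)).trans_lt ?_
        exact ha i
      · rw [Finset.not_nonempty_iff_eq_empty.mp hdeg]
        simp
  -- apply the hypothesis
  obtain ⟨a, b, hab⟩ := hI.ext (L := R)
    (fun i => IsLocalRing.residue O ⟨g i, (hmemO _).mpr (hg1 i)⟩) (by
      rw [← map_one (IsLocalRing.residue O)]
      simp only [← map_pow]
      rw [← map_sum, ← map_add, hres0]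
      have : (((1 : O) + ∑ i, (⟨g i, (hmemO _).mpr (hg1 i)⟩ : O) ^ 2 : O) : L)
          = 1 + ∑ i, g i ^ 2 := by
        push_cast
        rfl
      rw [this, hg2, norm_zero]
      exact zero_lt_one)
  obtain ⟨a, rfl⟩ := IsLocalRing.residue_surjective a
  obtain ⟨b, rfl⟩ := IsLocalRing.residue_surjective b
  rw [← map_one (IsLocalRing.residue O), ← map_pow, ← map_pow, ← map_add, ← map_add, hres0] at hab
  have hfin : ‖1 + (a : L) ^ 2 + (b : L) ^ 2‖ < 1 := by
    simpa using hab
  exact exists_two_sq_of_norm_lt h2 ((hmemO _).mp a.2) ((hmemO _).mp b.2) hfin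

end

theorem IStar_of_complete {κ Ω : Type*} [Field κ] [CharZero κ] [NontriviallyNormedField Ω]
    [IsUltrametricDist Ω] [CompleteSpace Ω] (ι : κ →+* Ω) (hι : ∀ a, a ≠ 0 → ‖ι a‖ = 1)
    (hres : ∀ x : Ω, ‖x‖ ≤ 1 → ∃ a, ‖x - ι a‖ < 1) (hI : IStar κ) : IStar Ω := by
  intro p hp
  rintro ⟨n, A, hA⟩
  have : Fact (Irreducible p) := ⟨hp⟩
  have hfd : FiniteDimensional Ω (AdjoinRoot p) := (AdjoinRoot.powerBasis hp.ne_zero).finite
  have h1 : 1 + ∑ i, AdjoinRoot.mk p (A i) ^ 2 = 0 := by
    have := AdjoinRoot.mk_eq_zero.mpr hA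
    simpa using this
  obtain ⟨a, b, hab⟩ := level_of_complete (L := AdjoinRoot p) ι hι hres hI
    (fun i => AdjoinRoot.mk p (A i)) h1
  obtain ⟨a, rfl⟩ := AdjoinRoot.mk_surjective a
  obtain ⟨b, rfl⟩ := AdjoinRoot.mk_surjective b
  refine ⟨a, b, ?_⟩
  rw [← AdjoinRoot.mk_eq_zero]
  simpa using hab

end Pool.Agent.Lib.MP_14789b_nt
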