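import Mathlib
import Pool.Agent.Lib.MP_14789b_nt.Criterion

open Polynomial

namespace Pool.Agent.Lib.MP_14789b_nt

theorem exists_common_denom_poly {F K : Type*} [Field F] [Field K] [Algebra F[X] K]
    [IsFractionRing F[X] K] {ι : Type*} [Finite ι] (f : ι → K) :
    ∃ (b : F[X]) (g : ι → F[X]), b ≠ 0 ∧ ∀ i, algebraMap _ K (g i) = algebraMap _ K b * f i := by
  obtain ⟨b, hb⟩ := IsLocalization.exist_integer_multiples_of_finite
    (nonZeroDivisors F[X]) f
  choose g hg using hb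
  exact ⟨b, g, nonZeroDivisors.ne_zero b.2, fun i => by rw [hg i, Algebra.smul_def]⟩

/-- The main criterion over the rational function field. -/
theorem criterion_field {F K : Type*} [Field F] [Field K] [Algebra F[X] K]
    [IsFractionRing F[X] K] {c1 c2 c3 : F} {l : ℕ} (w : Fin l → F) (hw : ∃ k, w k ≠ 0)
    (h1 : Str1 F c1 c2 c3) (h3 : Str3 F c1 (c1 * ∑ k, w k ^ 2) c2 c3)
    (ξ : Fin 3 → K) (hξ : ∃ j, ξ j ≠ 0) {n : ℕ} (v : Fin n → Fin 3 → K)
    (hperp : ∀ k, ∑ j, ξ j * v k j = 0)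
    (hsum : algebraMap F[X] K (C c1 * (X ^ 2 + C (∑ k, w k ^ 2))) * ∑ k, v k 0 ^ 2
      + algebraMap F[X] K (C c2) * ∑ k, v k 1 ^ 2
      + algebraMap F[X] K (C c3) * ∑ k, v k 2 ^ 2 = 0) : ∀ k j, v k j = 0 := by
  have hinj : Function.Injective (algebraMap F[X] K) := IsFractionRing.injective _ _
  obtain ⟨a, x, ha, hx⟩ := exists_common_denom_poly (F := F) ξ
  obtain ⟨b, g, hb, hg⟩ := exists_common_denom_poly (F := F) (fun y : Fin n × Fin 3 => v y.1 y.2)
  have ha0 : algebraMap F[X] K a ≠ 0 := fun h => ha ((map_eq_zero_iff _ hinj).mp h)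
  have hb0 : algebraMap F[X] K b ≠ 0 := fun h => hb ((map_eq_zero_iff _ hinj).mp h)
  have hx0 : ∃ j, x j ≠ 0 := by
    obtain ⟨j, hj⟩ := hξ
    refine ⟨j, fun h => ?_⟩
    have := hx j
    rw [h, map_zero] at this
    exact (mul_ne_zero ha0 hj) this.symm
  have hgv : ∀ k j, algebraMap F[X] K (g (k, j)) = algebraMap F[X] K b * v k j :=
    fun k j => hg (k, j)
  have key := criterion_poly w hw h1 h3 x hx0 (fun k j => g (k, j)) (by
    intro k
    apply hinj
    rw [map_zero, map_sum]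
    have : ∀ j, algebraMap F[X] K (x j * g (k, j))
        = algebraMap F[X] K a * algebraMap F[X] K b * (ξ j * v k j) := by
      intro j
      rw [map_mul, hx, hgv]; ring
    simp only [this]
    rw [← Finset.mul_sum, hperp, mul_zero]) (by
    apply hinj
    have e : ∀ j, algebraMap F[X] K (∑ k, g (k, j) ^ 2)
        = algebraMap F[X] K b ^ 2 * ∑ k, v k j ^ 2 := by
      intro j
      rw [map_sum, Finset.mul_sum]
      exact Finset.sum_congr rfl fun k _ => by rw [map_pow, hgv]; ring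
    rw [map_zero, map_add, map_add, map_mul (algebraMap F[X] K) _ (∑ k, g (k, 0) ^ 2),
      map_mul (algebraMap F[X] K) _ (∑ k, g (k, 1) ^ 2),
      map_mul (algebraMap F[X] K) _ (∑ k, g (k, 2) ^ 2), e, e, e]
    linear_combination (algebraMap F[X] K b ^ 2) * hsum)
  intro k j
  have h5 := hgv k j
  rw [key k j, map_zero] at h5
  exact (mul_eq_zero.mp h5.symm).resolve_left hb0

end Pool.Agent.Lib.MP_14789b_nt
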