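import Mathlib
import Pool.Agent.Lib.MP_14789b_nt.Complete

open Polynomial

namespace Pool.Agent.Lib.MP_14789b_nt

open WithZero MonoidWithZeroHom

theorem IStar_laurent {κ : Type*} [Field κ] [CharZero κ] (hI : IStar κ) :
    IStar (LaurentSeries κ) := by
  let v : Valuation (LaurentSeries κ) (WithZero (Multiplicative ℤ)) := Valued.v
  let _ : Valuation.RankOne v :=
    { hom' := (WithZeroMulInt.toNNReal (e := 2) (by norm_num)).comp ValueGroup₀.embedding
      strictMono' := (WithZeroMulInt.toNNReal_strictMono (by norm_num)).comp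
        ValueGroup₀.embedding_strictMono
      exists_val_nontrivial := by
        refine ⟨HahnSeries.single 1 1, ?_⟩
        have := LaurentSeries.valuation_single_zpow κ 1
        change v _ = _ at this
        rw [this]
        constructor
        · exact WithZero.exp_ne_zero
        · decide }
  let _ : NontriviallyNormedField (LaurentSeries κ) :=
    Valued.toNontriviallyNormedField (LaurentSeries κ) (WithZero (Multiplicative ℤ))
  have hlt : ∀ x : LaurentSeries κ, ‖x‖ < 1 ↔ v x < 1 := fun x =>
    Valued.toNormedField.norm_lt_one_iff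
  have hle : ∀ x : LaurentSeries κ, ‖x‖ ≤ 1 ↔ v x ≤ 1 := fun x =>
    Valued.toNormedField.norm_le_one_iff
  have hC : ∀ a : κ, v (HahnSeries.C a) ≤ 1 := by
    intro a
    refine (LaurentSeries.val_le_one_iff_eq_coe κ _).mpr ⟨PowerSeries.C a, ?_⟩
    simp
  refine IStar_of_complete (HahnSeries.C : κ →+* LaurentSeries κ) ?_ ?_ hI
  · intro a ha
    have h1 : ‖(HahnSeries.C a : LaurentSeries κ)‖ ≤ 1 := (hle _).mpr (hC a)
    have h2 : ‖(HahnSeries.C a⁻¹ : LaurentSeries κ)‖ ≤ 1 := (hle _).mpr (hC _)
    rw [map_inv₀, norm_inv] at h2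
    have h3 : 0 < ‖(HahnSeries.C a : LaurentSeries κ)‖ := by
      rw [norm_pos_iff]
      intro h
      exact ha (HahnSeries.C_injective (by rw [h, map_zero]))
    exact le_antisymm h1 ((inv_le_one₀ h3).mp h2)
  · intro x hx
    refine ⟨x.coeff 0, (hlt _).mpr ?_⟩
    have h1 : v (x - HahnSeries.C (x.coeff 0)) ≤ WithZero.exp (-1 : ℤ) := by
      refine (LaurentSeries.valuation_le_iff_coeff_lt_eq_zero κ (D := 1)).mpr ?_
      intro n hn
      rw [HahnSeries.coeff_sub, HahnSeries.C_apply]
      rcases (Int.lt_add_one_iff.mp (show n < 0 + 1 by simpa using hn)).lt_or_eq with h | h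
      · have h2 : x.coeff n = 0 := by
          refine (LaurentSeries.valuation_le_iff_coeff_lt_eq_zero κ (D := 0)).mp ?_ n h
          rw [neg_zero]
          exact (hle x).mp hx
        rw [h2, HahnSeries.coeff_single_of_ne h.ne, sub_zero]
      · rw [h, HahnSeries.coeff_single_same, sub_self]
    refine lt_of_le_of_lt h1 ?_
    decide

end Pool.Agent.Lib.MP_14789b_nt
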