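import Mathlib
import Pool.Agent.Lib.MP_14789b_nt.Criterion
import Pool.Agent.Lib.MP_14789b_nt.Pyth
namespace Pool.Agent.Lib.MP_14789b_nt

open PowerSeries in
theorem descent {κ : Type*} [Field κ] {ι : Type*} (S : (ι → κ⟦X⟧) → Prop)
    (hS : ∀ g, S g → ∃ g' : ι → κ⟦X⟧, (∀ i, g i = X * g' i) ∧ S g') :
    ∀ g, S g → ∀ i, g i = 0 := by
  have h1 : ∀ (N : ℕ) (g : ι → κ⟦X⟧), S g → ∀ i, X ^ N ∣ g i := by
    intro N
    induction N with
    | zero => intro g _ i; simp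
    | succ N ih =>
      intro g hg i
      obtain ⟨g', h2, h3⟩ := hS g hg
      rw [h2 i, pow_succ']
      exact mul_dvd_mul_left _ (ih g' h3 i)
  intro g hg i
  ext n
  rw [(X_pow_dvd_iff.mp (h1 (n + 1) g hg i)) n (Nat.lt_succ_self n), map_zero]

section
variable {κ : Type} [Field κ]

open PowerSeries in
theorem ps1 (hR : FReal κ) (hψ : ∀ x y z : κ, x ^ 2 + y ^ 2 = 3 * z ^ 2 → x = 0 ∧ y = 0 ∧ z = 0)
    {n : ℕ} (g : Fin n ⊕ Fin 2 → κ⟦X⟧)
    (hg : X * ∑ i, g (Sum.inl i) ^ 2 = 3 * (1 + X) * g (Sum.inr 0) ^ 2 - g (Sum.inr 1) ^ 2) :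
    ∀ i, g i = 0 := by
  refine descent (fun g : Fin n ⊕ Fin 2 → κ⟦X⟧ => X * ∑ i, g (Sum.inl i) ^ 2
    = 3 * (1 + X) * g (Sum.inr 0) ^ 2 - g (Sum.inr 1) ^ 2) ?_ g hg
  clear hg g
  intro g hg
  have h0 := congrArg (constantCoeff (R := κ)) hg
  rw [map_mul, constantCoeff_X, zero_mul, map_sub, map_mul, map_mul, map_add, constantCoeff_X,
    map_one, map_ofNat, map_pow, map_pow] at h0
  obtain ⟨hz, -, hy⟩ := hψ (constantCoeff (g (Sum.inr 1))) 0 (constantCoeff (g (Sum.inr 0)))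
    (by linear_combination h0)
  obtain ⟨y, hy⟩ := X_dvd_iff.mpr hy
  obtain ⟨z, hz⟩ := X_dvd_iff.mpr hz
  rw [hy, hz] at hg
  have h1 : ∑ i, g (Sum.inl i) ^ 2 = X * (3 * (1 + X) * y ^ 2 - z ^ 2) := by
    apply mul_left_cancel₀ (X_ne_zero (R := κ))
    linear_combination hg
  have h2 := congrArg (constantCoeff (R := κ)) h1
  rw [map_sum, map_mul, constantCoeff_X, zero_mul] at h2
  simp only [map_pow] at h2
  have h3 := hR _ _ h2
  have h4 : ∀ i, ∃ f, g (Sum.inl i) = X * f := fun i => X_dvd_iff.mpr (h3 i)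
  choose f hf using h4
  refine ⟨Sum.elim f ![y, z], ?_, ?_⟩
  · rintro (i | i)
    · exact hf i
    · fin_cases i
      · exact hy
      · exact hz
  · simp only [Sum.elim_inl, Sum.elim_inr, Matrix.cons_val_zero, Matrix.cons_val_one]
    have h5 : ∑ i, g (Sum.inl i) ^ 2 = X ^ 2 * ∑ i, f i ^ 2 := by
      rw [Finset.mul_sum]
      exact Finset.sum_congr rfl fun i _ => by rw [hf i]; ring
    rw [h5] at h1
    apply mul_left_cancel₀ (X_ne_zero (R := κ))
    linear_combination h1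

open PowerSeries in
theorem ps3 (hR : FReal κ) (hψ : ∀ x y z : κ, x ^ 2 + y ^ 2 = 3 * z ^ 2 → x = 0 ∧ y = 0 ∧ z = 0)
    {n : ℕ} (g : Fin n ⊕ Fin 3 → κ⟦X⟧)
    (hg : g (Sum.inr 0) ^ 2 + g (Sum.inr 1) ^ 2 + X * ∑ i, g (Sum.inl i) ^ 2
      = 3 * (1 + X) * g (Sum.inr 2) ^ 2) :
    ∀ i, g i = 0 := by
  refine descent (fun g : Fin n ⊕ Fin 3 → κ⟦X⟧ => g (Sum.inr 0) ^ 2 + g (Sum.inr 1) ^ 2
    + X * ∑ i, g (Sum.inl i) ^ 2 = 3 * (1 + X) * g (Sum.inr 2) ^ 2) ?_ g hg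
  clear hg g
  intro g hg
  have h0 := congrArg (constantCoeff (R := κ)) hg
  rw [map_add, map_add, map_mul, constantCoeff_X, zero_mul, map_mul, map_mul, map_add,
    constantCoeff_X, map_one, map_ofNat, map_pow, map_pow, map_pow] at h0
  obtain ⟨hx, hx', hy⟩ := hψ (constantCoeff (g (Sum.inr 0))) (constantCoeff (g (Sum.inr 1)))
    (constantCoeff (g (Sum.inr 2))) (by linear_combination h0)
  obtain ⟨x, hx⟩ := X_dvd_iff.mpr hx
  obtain ⟨x', hx'⟩ := X_dvd_iff.mpr hx'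
  obtain ⟨y, hy⟩ := X_dvd_iff.mpr hy
  rw [hx, hx', hy] at hg
  have h1 : ∑ i, g (Sum.inl i) ^ 2 = X * (3 * (1 + X) * y ^ 2 - x ^ 2 - x' ^ 2) := by
    apply mul_left_cancel₀ (X_ne_zero (R := κ))
    linear_combination hg
  have h2 := congrArg (constantCoeff (R := κ)) h1
  rw [map_sum, map_mul, constantCoeff_X, zero_mul] at h2
  simp only [map_pow] at h2
  have h3 := hR _ _ h2
  have h4 : ∀ i, ∃ f, g (Sum.inl i) = X * f := fun i => X_dvd_iff.mpr (h3 i)
  choose f hf using h4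
  refine ⟨Sum.elim f ![x, x', y], ?_, ?_⟩
  · rintro (i | i)
    · exact hf i
    · fin_cases i
      · exact hx
      · exact hx'
      · exact hy
  · simp only [Sum.elim_inl, Sum.elim_inr, Matrix.cons_val_zero, Matrix.cons_val_one,
      Matrix.cons_val]
    have h5 : ∑ i, g (Sum.inl i) ^ 2 = X ^ 2 * ∑ i, f i ^ 2 := by
      rw [Finset.mul_sum]
      exact Finset.sum_congr rfl fun i _ => by rw [hf i]; ring
    rw [h5] at h1
    apply mul_left_cancel₀ (X_ne_zero (R := κ))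
    linear_combination h1

/-- the uniformizer -/
noncomputable abbrev sg (κ : Type) [Field κ] : LaurentSeries κ := HahnSeries.single 1 1

theorem sg_eq : algebraMap (PowerSeries κ) (LaurentSeries κ) PowerSeries.X = sg κ := by
  rw [LaurentSeries.coe_algebraMap]
  exact PowerSeries.coe_X

theorem sg_ne_zero : sg κ ≠ 0 := by
  rw [← sg_eq]
  intro h
  exact PowerSeries.X_ne_zero ((map_eq_zero_iff _ (IsFractionRing.injective _ _)).mp h)

/-- clearing denominators -/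
theorem exists_common_denom {ι : Type} [Finite ι] (f : ι → LaurentSeries κ) :
    ∃ (b : PowerSeries κ) (g : ι → PowerSeries κ), b ≠ 0 ∧
      ∀ i, algebraMap _ (LaurentSeries κ) (g i) = algebraMap _ _ b * f i := by
  obtain ⟨b, hb⟩ := IsLocalization.exist_integer_multiples_of_finite
    (nonZeroDivisors (PowerSeries κ)) f
  choose g hg using hb
  exact ⟨b, g, nonZeroDivisors.ne_zero b.2, fun i => by rw [hg i, Algebra.smul_def]⟩

theorem str1_laurent (hR : FReal κ)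
    (hψ : ∀ x y z : κ, x ^ 2 + y ^ 2 = 3 * z ^ 2 → x = 0 ∧ y = 0 ∧ z = 0) :
    Str1 (LaurentSeries κ) 1 (-(1 + (sg κ)⁻¹) * 3) (sg κ)⁻¹ := by
  intro n f y z h
  obtain ⟨b, g, hb, hg⟩ := exists_common_denom
    (Sum.elim f ![y, z] : Fin n ⊕ Fin 2 → LaurentSeries κ)
  set φ := algebraMap (PowerSeries κ) (LaurentSeries κ) with hφ
  have hinj : Function.Injective φ := IsFractionRing.injective _ _
  have hb0 : φ b ≠ 0 := fun h => hb ((map_eq_zero_iff _ hinj).mp h)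
  have hgl : ∀ i, φ (g (Sum.inl i)) = φ b * f i := fun i => hg (Sum.inl i)
  have hg0 : φ (g (Sum.inr 0)) = φ b * y := hg (Sum.inr 0)
  have hg1 : φ (g (Sum.inr 1)) = φ b * z := hg (Sum.inr 1)
  have hs := sg_ne_zero (κ := κ)
  have hsum : φ (∑ i, g (Sum.inl i) ^ 2) = φ b ^ 2 * ∑ i, f i ^ 2 := by
    rw [map_sum, Finset.mul_sum]
    exact Finset.sum_congr rfl fun i _ => by rw [map_pow, hgl]; ring
  have hss : sg κ * (sg κ)⁻¹ = 1 := mul_inv_cancel₀ hs
  have key := ps1 hR hψ g (by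
    apply hinj
    rw [map_mul, hsum, map_sub, map_mul, map_mul, map_add, map_one, map_ofNat, map_pow, map_pow,
      hg0, hg1, sg_eq]
    linear_combination (sg κ * φ b ^ 2) * h
      + (φ b ^ 2 * (3 * y ^ 2 - z ^ 2)) * hss)
  refine ⟨fun i => ?_, ?_, ?_⟩
  · have := hgl i
    rw [key, map_zero] at this
    exact (mul_eq_zero.mp this.symm).resolve_left hb0
  · rw [key, map_zero] at hg0
    exact (mul_eq_zero.mp hg0.symm).resolve_left hb0
  · rw [key, map_zero] at hg1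
    exact (mul_eq_zero.mp hg1.symm).resolve_left hb0

theorem str3_laurent (hR : FReal κ)
    (hψ : ∀ x y z : κ, x ^ 2 + y ^ 2 = 3 * z ^ 2 → x = 0 ∧ y = 0 ∧ z = 0) :
    Str3 (LaurentSeries κ) 1 1 (-(1 + sg κ) * 3) (sg κ) := by
  intro n f x x' y h
  obtain ⟨b, g, hb, hg⟩ := exists_common_denom
    (Sum.elim f ![x, x', y] : Fin n ⊕ Fin 3 → LaurentSeries κ)
  set φ := algebraMap (PowerSeries κ) (LaurentSeries κ) with hφ
  have hinj : Function.Injective φ := IsFractionRing.injective _ _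
  have hb0 : φ b ≠ 0 := fun h => hb ((map_eq_zero_iff _ hinj).mp h)
  have hgl : ∀ i, φ (g (Sum.inl i)) = φ b * f i := fun i => hg (Sum.inl i)
  have hg0 : φ (g (Sum.inr 0)) = φ b * x := hg (Sum.inr 0)
  have hg1 : φ (g (Sum.inr 1)) = φ b * x' := hg (Sum.inr 1)
  have hg2 : φ (g (Sum.inr 2)) = φ b * y := hg (Sum.inr 2)
  have hsum : φ (∑ i, g (Sum.inl i) ^ 2) = φ b ^ 2 * ∑ i, f i ^ 2 := by
    rw [map_sum, Finset.mul_sum]
    exact Finset.sum_congr rfl fun i _ => by rw [map_pow, hgl]; ring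
  have key := ps3 hR hψ g (by
    apply hinj
    rw [map_add, map_add, map_mul, hsum, map_mul, map_mul, map_add, map_one, map_ofNat, map_pow,
      map_pow, map_pow, hg0, hg1, hg2, sg_eq]
    linear_combination (φ b ^ 2) * h)
  refine ⟨fun i => ?_, ?_, ?_, ?_⟩
  · have := hgl i
    rw [key, map_zero] at this
    exact (mul_eq_zero.mp this.symm).resolve_left hb0
  · rw [key, map_zero] at hg0
    exact (mul_eq_zero.mp hg0.symm).resolve_left hb0
  · rw [key, map_zero] at hg1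
    exact (mul_eq_zero.mp hg1.symm).resolve_left hb0
  · rw [key, map_zero] at hg2
    exact (mul_eq_zero.mp hg2.symm).resolve_left hb0

end

theorem Str1.comap {F E : Type*} [Field F] [Field E] (φ : F →+* E) {c1 c2 c3 : F}
    (h : Str1 E (φ c1) (φ c2) (φ c3)) : Str1 F c1 c2 c3 := by
  intro n f y z hs
  have h1 := congrArg φ hs
  simp only [map_add, map_mul, map_sum, map_pow, map_zero] at h1
  obtain ⟨h2, h3, h4⟩ := h n (fun i => φ (f i)) _ _ h1
  exact ⟨fun i => (map_eq_zero φ).mp (h2 i), (map_eq_zero φ).mp h3, (map_eq_zero φ).mp h4⟩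

theorem Str3.comap {F E : Type*} [Field F] [Field E] (φ : F →+* E) {c1 c1' c2 c3 : F}
    (h : Str3 E (φ c1) (φ c1') (φ c2) (φ c3)) : Str3 F c1 c1' c2 c3 := by
  intro n f x x' y hs
  have h1 := congrArg φ hs
  simp only [map_add, map_mul, map_sum, map_pow, map_zero] at h1
  obtain ⟨h2, h3, h4, h5⟩ := h n (fun i => φ (f i)) _ _ _ h1
  exact ⟨fun i => (map_eq_zero φ).mp (h2 i), (map_eq_zero φ).mp h3, (map_eq_zero φ).mp h4,
    (map_eq_zero φ).mp h5⟩

end Pool.Agent.Lib.MP_14789b_nt
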