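import Mathlib
import Pool.Agent.Lib.MP_14789b_nt.Pyth
open Polynomial
namespace Pool.Agent.Lib.MP_14789b_nt

theorem IStar_real : IStar ℝ := by
  intro p hp
  rintro ⟨n, A, hA⟩
  have hdeg : p.degree ≠ 0 := fun h => hp.not_isUnit (isUnit_iff_degree_eq_zero.mpr h)
  obtain ⟨z, hz⟩ := IsAlgClosed.exists_aeval_eq_zero ℂ p hdeg
  by_cases him : z.im = 0
  · exfalso
    have hzr : z = algebraMap ℝ ℂ z.re := by
      apply Complex.ext <;> simp [him]
    obtain ⟨q, hq⟩ := hA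
    have h1 := congrArg (aeval z) hq
    rw [map_mul, hz, zero_mul, hzr, aeval_algebraMap_apply] at h1
    have h2 : aeval z.re (1 + ∑ i, A i ^ 2) = 0 := by
      apply (algebraMap ℝ ℂ).injective
      rw [h1, map_zero]
    simp only [map_add, map_one, map_sum, map_pow] at h2
    have h3 : 0 ≤ ∑ i, (aeval z.re (A i)) ^ 2 := Finset.sum_nonneg fun i _ => sq_nonneg _
    linarith
  · have hint : IsIntegral ℝ z := Algebra.IsIntegral.isIntegral z
    refine ⟨C (z.im)⁻¹ * (X - C z.re), 0, ?_⟩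
    have h1 : minpoly ℝ z ∣ 1 + (C (z.im)⁻¹ * (X - C z.re)) ^ 2 + 0 ^ 2 := by
      apply minpoly.dvd
      simp only [map_add, map_one, map_pow, map_mul, map_sub, aeval_X, aeval_C, map_zero]
      have h2 : z - (algebraMap ℝ ℂ) z.re = z.im * Complex.I := by
        apply Complex.ext <;> simp
      rw [h2]
      have h3 : (algebraMap ℝ ℂ) (z.im)⁻¹ * ((z.im : ℂ) * Complex.I) = Complex.I := by
        have h4 : (z.im : ℂ) ≠ 0 := by exact_mod_cast him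
        have h5 : (algebraMap ℝ ℂ) (z.im)⁻¹ = ((z.im : ℂ))⁻¹ := by simp
        rw [h5]
        field_simp
      rw [h3, Complex.I_sq]
      ring
    have h6 : minpoly ℝ z ∣ p := minpoly.dvd ℝ z hz
    have h7 : p ∣ minpoly ℝ z := by
      obtain ⟨q, hq⟩ := h6
      rcases hp.isUnit_or_isUnit hq with h | h
      · exact absurd h (minpoly.irreducible hint).not_isUnit
      · exact (hq ▸ (associated_mul_unit_left (minpoly ℝ z) q h)).dvd
    exact h7.trans h1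

theorem IStar_of_two {F : Type*} [Field F] {a b : F} (h : 1 + a ^ 2 + b ^ 2 = 0) : IStar F := by
  intro p _ _
  refine ⟨C a, C b, ?_⟩
  rw [← C_pow, ← C_pow, ← C_1, ← C_add, ← C_add, h, C_0]
  exact dvd_zero _

theorem exists_two_Q3 : ∃ a b : ℚ_[3], 1 + a ^ 2 + b ^ 2 = 0 := by
  have h3 : ‖(3 : ℤ_[3])‖ < 1 := by
    have h := (PadicInt.norm_int_lt_one_iff_dvd (p := 3) 3).mpr (by norm_num)
    exact_mod_cast h
  have h2 : ‖(2 : ℤ_[3])‖ = 1 := by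
    have h := PadicInt.norm_int_lt_one_iff_dvd (p := 3) 2
    have h1 : ¬ ‖((2 : ℤ) : ℤ_[3])‖ < 1 := by
      rw [h]; norm_num
    push_cast at h1
    exact le_antisymm (PadicInt.norm_le_one _) (not_lt.mp h1)
  obtain ⟨z, hz, -⟩ := hensels_lemma (p := 3) (R := ℤ_[3]) (F := (X ^ 2 + 2 : ℤ_[3][X]))
    (a := (1 : ℤ_[3])) (by
      simp only [map_add, map_pow, aeval_X, one_pow, derivative_X_pow,
        map_ofNat, derivative_ofNat, map_mul]
      norm_num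
      rw [h2]
      simpa using h3)
  refine ⟨1, (z : ℚ_[3]), ?_⟩
  have h1 : z ^ 2 + 2 = 0 := by simpa using hz
  have h2 := congrArg (PadicInt.Coe.ringHom (p := 3)) h1
  rw [map_add, map_pow, map_ofNat, map_zero] at h2
  change (z : ℚ_[3]) ^ 2 + 2 = 0 at h2
  linear_combination h2

theorem aniso_Z3 {x y z : ℤ_[3]} (h : x ^ 2 + y ^ 2 = 3 * z ^ 2) :
    ‖x‖ < 1 ∧ ‖y‖ < 1 ∧ ‖z‖ < 1 := by
  have hdvd : ∀ t : ℤ_[3], PadicInt.toZMod t = 0 → (3 : ℤ_[3]) ∣ t := by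
    intro t ht
    have h1 : t ∈ RingHom.ker (PadicInt.toZMod : ℤ_[3] →+* ZMod 3) := ht
    rw [PadicInt.ker_toZMod, PadicInt.maximalIdeal_eq_span_p, Ideal.mem_span_singleton] at h1
    exact_mod_cast h1
  have hlt : ∀ t : ℤ_[3], (3 : ℤ_[3]) ∣ t → ‖t‖ < 1 := by
    intro t ht
    rw [PadicInt.norm_lt_one_iff_dvd]
    exact_mod_cast ht
  have h1 := congrArg (PadicInt.toZMod (p := 3)) h
  rw [map_add, map_mul, map_pow, map_pow, map_pow, map_ofNat] at h1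
  have h2 : ∀ a b c : ZMod 3, a ^ 2 + b ^ 2 = (OfNat.ofNat 3) * c ^ 2 → a = 0 ∧ b = 0 := by
    decide
  obtain ⟨hx, hy⟩ := h2 _ _ _ h1
  obtain ⟨x', rfl⟩ := hdvd x hx
  obtain ⟨y', rfl⟩ := hdvd y hy
  have h30 : (3 : ℤ_[3]) ≠ 0 := by
    intro h
    have : ((3 : ℕ) : ℤ_[3]) = 0 := by exact_mod_cast h
    exact absurd (Nat.cast_eq_zero.mp this) (by norm_num)
  have h3 : z ^ 2 = 3 * (x' ^ 2 + y' ^ 2) := by
    apply mul_left_cancel₀ h30
    linear_combination (-1 : ℤ_[3]) * h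
  have h4 : PadicInt.toZMod z = 0 := by
    have h5 := congrArg (PadicInt.toZMod (p := 3)) h3
    rw [map_mul, map_pow, map_ofNat] at h5
    have h6 : ∀ a b : ZMod 3, a ^ 2 = (OfNat.ofNat 3) * b → a = 0 := by decide
    exact h6 _ _ h5
  exact ⟨hlt _ ⟨x', rfl⟩, hlt _ ⟨y', rfl⟩, hlt _ (hdvd z h4)⟩

theorem aniso_Q3 {x y z : ℚ_[3]} (h : x ^ 2 + y ^ 2 = 3 * z ^ 2) : x = 0 ∧ y = 0 ∧ z = 0 := by
  classical
  -- scaled version
  have aux : ∀ w : ℚ_[3], w ≠ 0 → ‖x‖ ≤ ‖w‖ → ‖y‖ ≤ ‖w‖ → ‖z‖ ≤ ‖w‖ →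
      ‖x‖ < ‖w‖ ∧ ‖y‖ < ‖w‖ ∧ ‖z‖ < ‖w‖ := by
    intro w hw hx hy hz
    have hw' : 0 < ‖w‖ := norm_pos_iff.mpr hw
    have hx1 : ‖x / w‖ ≤ 1 := by rw [norm_div]; exact div_le_one_of_le₀ hx hw'.le
    have hy1 : ‖y / w‖ ≤ 1 := by rw [norm_div]; exact div_le_one_of_le₀ hy hw'.le
    have hz1 : ‖z / w‖ ≤ 1 := by rw [norm_div]; exact div_le_one_of_le₀ hz hw'.le
    obtain ⟨h1, h2, h3⟩ := aniso_Z3 (x := ⟨x / w, hx1⟩) (y := ⟨y / w, hy1⟩) (z := ⟨z / w, hz1⟩) (by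
      apply Subtype.ext
      have : (x / w) ^ 2 + (y / w) ^ 2 = 3 * (z / w) ^ 2 := by
        field_simp
        exact h
      exact this)
    change ‖x / w‖ < 1 at h1
    change ‖y / w‖ < 1 at h2
    change ‖z / w‖ < 1 at h3
    rw [norm_div, div_lt_one hw'] at h1 h2 h3
    exact ⟨h1, h2, h3⟩
  by_contra hcon
  have hne : x ≠ 0 ∨ y ≠ 0 ∨ z ≠ 0 := by tauto
  have hmax : ∃ w ∈ ({x, y, z} : Finset ℚ_[3]), ∀ t ∈ ({x, y, z} : Finset ℚ_[3]), ‖t‖ ≤ ‖w‖ :=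
    Finset.exists_max_image _ _ ⟨x, by simp⟩
  obtain ⟨w, hw, hmax⟩ := hmax
  have hx := hmax x (by simp)
  have hy := hmax y (by simp)
  have hz := hmax z (by simp)
  have hw0 : w ≠ 0 := by
    rintro rfl
    rw [norm_zero] at hx hy hz
    rcases hne with h | h | h
    · exact h (norm_le_zero_iff.mp hx)
    · exact h (norm_le_zero_iff.mp hy)
    · exact h (norm_le_zero_iff.mp hz)
  obtain ⟨h1, h2, h3⟩ := aux w hw0 hx hy hz
  simp only [Finset.mem_insert, Finset.mem_singleton] at hw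
  rcases hw with rfl | rfl | rfl
  · exact lt_irrefl _ h1
  · exact lt_irrefl _ h2
  · exact lt_irrefl _ h3

theorem uncountable_of_complete (K : Type) [NontriviallyNormedField K] [CompleteSpace K] :
    Uncountable K := by
  have h := continuum_le_cardinal_of_nontriviallyNormedField K
  rw [← Cardinal.aleph0_lt_mk_iff]
  exact lt_of_lt_of_le Cardinal.aleph0_lt_continuum h

end Pool.Agent.Lib.MP_14789b_nt
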