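import Mathlib
import Pool.Agent.Lib.MP_14789b_nt.LaurentForms
import Pool.Agent.Lib.MP_14789b_nt.Laurent
import Pool.Agent.Lib.MP_14789b_nt.Closure
import Pool.Agent.Lib.MP_14789b_nt.Local

open Polynomial

namespace Pool.Agent.Lib.MP_14789b_nt

theorem exists_kappa : ∃ (κ : Type) (_ : Field κ) (_ : CharZero κ) (_ : Countable κ),
    FReal κ ∧ (∀ x y z : κ, x ^ 2 + y ^ 2 = 3 * z ^ 2 → x = 0 ∧ y = 0 ∧ z = 0) ∧ IStar κ := by
  have hu1 : Uncountable ℝ := uncountable_of_complete ℝ
  have hu2 : Uncountable ℚ_[3] := uncountable_of_complete ℚ_[3]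
  obtain ⟨a, b, hab⟩ := exists_two_Q3
  obtain ⟨κ, _, hc, i, φ1, φ2, -, -, hI⟩ := exists_IStar_field ℝ ℚ_[3] IStar_real
    (IStar_of_two hab) ℚ (Rat.castHom ℝ) (Rat.castHom ℚ_[3])
  refine ⟨κ, inferInstance, RingHom.charZero φ1, hc, ?_, ?_, hI⟩
  · intro n f hf
    have h1 := congrArg φ1 hf
    simp only [map_sum, map_pow, map_zero] at h1
    intro i
    have h2 := (Finset.sum_eq_zero_iff_of_nonneg (fun i _ => sq_nonneg (φ1 (f i)))).mp h1 i
      (Finset.mem_univ i)
    exact (map_eq_zero φ1).mp (pow_eq_zero_iff (by norm_num) |>.mp h2)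
  · intro x y z h
    have h1 := congrArg φ2 h
    rw [map_add, map_mul, map_pow, map_pow, map_pow, map_ofNat] at h1
    obtain ⟨h2, h3, h4⟩ := aniso_Q3 h1
    exact ⟨(map_eq_zero φ2).mp h2, (map_eq_zero φ2).mp h3, (map_eq_zero φ2).mp h4⟩

theorem exists_F : ∃ (F : Type) (_ : Field F) (_ : CharZero F) (c : F),
    Str1 F 1 (-(1 + c) * 3) c ∧ Str3 F 1 1 (-(1 + c) * 3) c ∧ FReal F ∧ IStar F := by
  obtain ⟨κ, _, _, _, hR, hψ, hI⟩ := exists_kappa
  have hIL := IStar_laurent hI
  have hchar : CharZero (LaurentSeries κ) :=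
    charZero_of_injective_algebraMap (algebraMap κ (LaurentSeries κ)).injective
  have hunc : Uncountable (LaurentSeries κ) := by
    have hinj : Function.Injective (fun f : ℕ → Bool =>
        algebraMap (PowerSeries κ) (LaurentSeries κ)
          (PowerSeries.mk fun n => if f n then 1 else 0)) := by
      intro f g hfg
      have h1 := IsFractionRing.injective (PowerSeries κ) (LaurentSeries κ) hfg
      funext n
      have h2 := congrArg (PowerSeries.coeff n) h1
      rw [PowerSeries.coeff_mk, PowerSeries.coeff_mk] at h2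
      cases hf : f n <;> cases hg : g n <;> simp [hf, hg] at h2 ⊢
    have hb : Uncountable (ℕ → Bool) := by
      rw [← Cardinal.aleph0_lt_mk_iff, Cardinal.mk_arrow, Cardinal.mk_bool]
      simpa using Cardinal.cantor Cardinal.aleph0
    exact hinj.uncountable
  -- transcendental elements
  have htr : Transcendental κ (sg κ) := by
    rw [transcendental_iff_injective]
    intro p q hpq
    have h1 : ∀ p : κ[X], aeval (sg κ) p
        = algebraMap (PowerSeries κ) (LaurentSeries κ) (p : PowerSeries κ) := by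
      have h2 : ((aeval (sg κ) : κ[X] →ₐ[κ] LaurentSeries κ) : κ[X] →+* LaurentSeries κ)
          = (algebraMap (PowerSeries κ) (LaurentSeries κ)).comp
            Polynomial.coeToPowerSeries.ringHom := by
        refine Polynomial.ringHom_ext (fun a => ?_) ?_
        · change aeval (sg κ) (C a) = algebraMap (PowerSeries κ) (LaurentSeries κ)
            ((C a : κ[X]) : PowerSeries κ)
          rw [aeval_C, Polynomial.coe_C, LaurentSeries.coe_algebraMap]
          simp [LaurentSeries.algebraMap_apply]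
        · change aeval (sg κ) (X : κ[X]) = algebraMap (PowerSeries κ) (LaurentSeries κ)
            ((X : κ[X]) : PowerSeries κ)
          rw [aeval_X, Polynomial.coe_X, sg_eq]
      intro p
      exact congrArg (fun f : κ[X] →+* LaurentSeries κ => f p) h2
    rw [h1, h1] at hpq
    exact Polynomial.coe_injective κ (IsFractionRing.injective _ _ hpq)
  have htr' : Transcendental κ (sg κ)⁻¹ := by
    intro h
    apply htr
    have := h.inv
    rwa [inv_inv] at this
  let ψ1 : FractionRing κ[X] →+* LaurentSeries κ :=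
    IsFractionRing.lift (g := (aeval (sg κ)⁻¹ : κ[X] →ₐ[κ] LaurentSeries κ).toRingHom)
      (transcendental_iff_injective.mp htr')
  let ψ2 : FractionRing κ[X] →+* LaurentSeries κ :=
    IsFractionRing.lift (g := (aeval (sg κ) : κ[X] →ₐ[κ] LaurentSeries κ).toRingHom)
      (transcendental_iff_injective.mp htr)
  have hc1 : Countable κ[X] := by
    rw [← Cardinal.mk_le_aleph0_iff]
    exact (Polynomial.cardinalMk_le_max).trans (max_le Cardinal.mk_le_aleph0 le_rfl)
  have hc2 : Countable (FractionRing κ[X]) := by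
    have hsurj : Function.Surjective
        (fun x : κ[X] × κ[X] => algebraMap _ (FractionRing κ[X]) x.1 / algebraMap _ _ x.2) := by
      intro z
      obtain ⟨x, y, -, hxy⟩ := IsFractionRing.div_surjective (A := κ[X]) z
      exact ⟨(x, y), hxy⟩
    exact hsurj.countable
  obtain ⟨F, _, hFc, i, φ1, φ2, h1, h2, hIF⟩ := exists_IStar_field (LaurentSeries κ)
    (LaurentSeries κ) hIL hIL (FractionRing κ[X]) ψ1 ψ2
  set t : FractionRing κ[X] := algebraMap κ[X] _ X with ht
  have hψ1 : ψ1 t = (sg κ)⁻¹ := by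
    have : ψ1 t = aeval (sg κ)⁻¹ (X : κ[X]) := IsFractionRing.lift_algebraMap _ _
    rw [this, aeval_X]
  have hψ2 : ψ2 t = sg κ := by
    have : ψ2 t = aeval (sg κ) (X : κ[X]) := IsFractionRing.lift_algebraMap _ _
    rw [this, aeval_X]
  have hs1 : Str1 F 1 (-(1 + i t) * 3) (i t) := by
    refine Str1.comap φ1 ?_
    rw [map_mul, map_neg, map_add, map_one, map_ofNat, h1, hψ1]
    exact str1_laurent hR hψ
  have hs3 : Str3 F 1 1 (-(1 + i t) * 3) (i t) := by
    refine Str3.comap φ2 ?_
    rw [map_mul, map_neg, map_add, map_one, map_ofNat, h2, hψ2]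
    exact str3_laurent hR hψ
  refine ⟨F, inferInstance, RingHom.charZero φ1, i t, hs1, hs3, ?_, hIF⟩
  intro n f hf
  exact (hs1 n f 0 0 (by rw [hf]; ring)).1

end Pool.Agent.Lib.MP_14789b_nt
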